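import Pool.Agent.H17.QA.HookDefs

/-!
# HJ: the joining machine of the Hook (MP_a352f3_pr, project QA), definitions

Strands: the tuples of `TFam κ ω Q D`. Ends: `En D` (strand, side), `pe D e` their position.

`PF S a b R L`: PATH FAMILY. To every tuple `w` of strands belongs an open self-avoiding path from `a` to `b`,
contained in the strands of `S` and the road region `R`, of length `∑_S n + L`, and it determines `w` on `S`.

`World`: a state of the machine. `fr` = free ends; `par e` = the other free end of the component of `e`; `S e`,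
`R e`, `L e` = strands, road region, road length of the component of `e`; the lane of `e`: region `U e`, an open
path of length at most `M e` from `pe D e` to the current hub `h e`. All regions are pairwise disjoint.

`Geo`: regions `reg x`, zones `zone x s ⊆ reg x` and hubs `hub x s` of the ports `s = false (-), true (+)` of the tree
vertices `x` (nodes and leaves = base cells). `At W e h Z`: the free end `e` sits at the hub `h`, all other lanes
and all roads avoid the zone `Z`.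

`LeafOK`, `NodeOK`: what the geometry has to provide. `Tree.OK`, `Tree.Sep`: the same along a tree.
-/

open MeasureTheory Filter Topology
open Pool.Agent.H17.IIC Pool.Agent.H41.QC Pool.Agent.H47.GM Pool.Agent.H17.QA

namespace Pool.Agent.H47.HJ

variable {d : ℕ}

/-- ends of the strands -/
abbrev En (D : TData d) := Fin D.k × Bool

/-- position of an end -/
def pe (D : TData d) (e : En D) : V d := D.pt e.1 e.2

/-- path family of a component -/
def PF (κ : Kind) (ω : El d → Bool) (Q : Set (V d)) (D : TData d) (S : Finset (Fin D.k))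
    (a b : V d) (R : Set (V d)) (L : ℕ) : Prop :=
  ∃ P : (Fin D.k → List (V d)) → List (V d),
    (∀ w ∈ TFam κ ω Q D, OP κ ω (P w) ∧ (P w).head? = some a ∧ (P w).getLast? = some b ∧
      (P w).length = ∑ j ∈ S, D.n j + L + 1 ∧ ∀ v ∈ P w, v ∈ R ∨ ∃ j ∈ S, v ∈ w j) ∧
    ∀ w ∈ TFam κ ω Q D, ∀ w' ∈ TFam κ ω Q D, P w = P w' → ∀ j ∈ S, w j = w' j

/-- state of the machine -/
structure World (κ : Kind) (ω : El d → Bool) (Q : Set (V d)) (D : TData d)
    (J : Finset (Fin D.k)) where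
  fr : Finset (En D)
  par : En D → En D
  S : En D → Finset (Fin D.k)
  R : En D → Set (V d)
  L : En D → ℕ
  U : En D → Set (V d)
  h : En D → V d
  M : En D → ℕ
  par_mem : ∀ e ∈ fr, par e ∈ fr
  par_ne : ∀ e ∈ fr, par e ≠ e
  par_par : ∀ e ∈ fr, par (par e) = e
  S_par : ∀ e ∈ fr, S (par e) = S e
  R_par : ∀ e ∈ fr, R (par e) = R e
  L_par : ∀ e ∈ fr, L (par e) = L e
  S_sub : ∀ e ∈ fr, S e ⊆ J
  S_mem : ∀ e ∈ fr, e.1 ∈ S e
  cover : ∀ j ∈ J, ∃ e ∈ fr, j ∈ S e
  S_disj : ∀ e ∈ fr, ∀ f ∈ fr, f ≠ e → f ≠ par e → Disjoint (S e) (S f)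
  R_disj : ∀ e ∈ fr, ∀ f ∈ fr, f ≠ e → f ≠ par e → Disjoint (R e) (R f)
  RU_disj : ∀ e ∈ fr, ∀ f ∈ fr, Disjoint (R e) (U f)
  U_disj : ∀ e ∈ fr, ∀ f ∈ fr, e ≠ f → Disjoint (U e) (U f)
  R_out : ∀ e ∈ fr, Disjoint (R e) Q
  U_out : ∀ e ∈ fr, ∀ v ∈ U e, v ∈ Q → v = pe D e
  lane : ∀ e ∈ fr, Rw κ ω (U e) (pe D e) (h e) (M e)
  pf : ∀ e ∈ fr, PF κ ω Q D (S e) (pe D e) (pe D (par e)) (R e) (L e)

variable {κ : Kind} {ω : El d → Bool} {Q : Set (V d)} {D : TData d} {J : Finset (Fin D.k)}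

/-- twice the total length of roads and lanes -/
def World.phi (W : World κ ω Q D J) : ℕ := ∑ e ∈ W.fr, (W.L e + 2 * W.M e)

/-- `W'` is obtained from `W` by changing only ends in `A` and using only the region `G` -/
structure Ext (W W' : World κ ω Q D J) (A : Set (En D)) (G : Set (V d)) : Prop where
  fr_sub : W'.fr ⊆ W.fr
  keep : ∀ e ∈ W.fr, e ∉ A → e ∈ W'.fr ∧ W'.U e = W.U e ∧ W'.h e = W.h e
  par_keep : ∀ e ∈ W.fr, e ∉ A → W.par e ∉ A → W'.par e = W.par e
  U_sub : ∀ e ∈ W'.fr, W'.U e ⊆ W.U e ∪ G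
  R_sub : ∀ f ∈ W'.fr, ∀ v ∈ W'.R f,
    (∃ g ∈ W.fr, v ∈ W.R g) ∨ (∃ g ∈ W.fr, g ∈ A ∧ v ∈ W.U g) ∨ v ∈ G

/-- the free end `e` sits at the hub `x`, everything else avoids the zone `Z` -/
structure At (W : World κ ω Q D J) (e : En D) (x : V d) (Z : Set (V d)) : Prop where
  mem : e ∈ W.fr
  hub : W.h e = x
  U_av : ∀ f ∈ W.fr, f ≠ e → Disjoint (W.U f) Z
  R_av : ∀ f ∈ W.fr, Disjoint (W.R f) Z

/-- no lane and no road meets `G` -/
def Fresh (W : World κ ω Q D J) (G : Set (V d)) : Prop :=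
  ∀ e ∈ W.fr, Disjoint (W.U e) G ∧ Disjoint (W.R e) G

/-- unprocessed end -/
def Raw (W : World κ ω Q D J) (e : En D) : Prop :=
  e ∈ W.fr ∧ W.U e = {pe D e} ∧ W.h e = pe D e

/-- binary trees -/
inductive Tree (X : Type*) where
  | leaf (x : X) : Tree X
  | node (x : X) (l r : Tree X) : Tree X

namespace Tree

variable {X : Type*}

/-- label of the root -/
def root : Tree X → X
  | leaf x => x
  | node x _ _ => x

/-- all labels -/
def verts : Tree X → Set X
  | leaf x => {x}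
  | node x l r => {x} ∪ verts l ∪ verts r

/-- subtrees -/
def IsSub (T : Tree X) : Tree X → Prop
  | leaf x => T = leaf x
  | node x l r => T = node x l r ∨ IsSub T l ∨ IsSub T r

/-- labels of the leaves -/
def leaves : Tree X → Set X
  | leaf x => {x}
  | node _ l r => leaves l ∪ leaves r

end Tree

/-- regions, zones and hubs -/
structure Geo (X : Type*) (d : ℕ) where
  reg : X → Set (V d)
  zone : X → Bool → Set (V d)
  hub : X → Bool → V d
  zone_sub : ∀ x s, zone x s ⊆ reg x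
  zone_disj : ∀ x, Disjoint (zone x false) (zone x true)

variable {X : Type*}

/-- region of a tree -/
def Geo.Reg (g : Geo X d) (T : Tree X) : Set (V d) := {v | ∃ x ∈ T.verts, v ∈ g.reg x}

open Classical in
/-- number of ends in a cell -/
noncomputable def nE (D : TData d) (J : Finset (Fin D.k)) (ce : En D → X) (x : X) : ℕ :=
  ((J ×ˢ (Finset.univ : Finset Bool)).filter fun e => ce e = x).card

/-- what the geometry provides in a base cell: one token to the port `-`; two tokens to the ports `-`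
and `+` (in some order); two tokens joined -/
structure LeafOK (κ : Kind) (ω : El d → Bool) (D : TData d) (J : Finset (Fin D.k)) (g : Geo X d)
    (ce : En D → X) (x : X) (mb : ℕ) : Prop where
  one : ∀ e : En D, e.1 ∈ J → ce e = x → ∃ U : Set (V d), Rw κ ω U (pe D e) (g.hub x false) mb ∧
    U ⊆ insert (pe D e) (g.reg x)
  two : ∀ e f : En D, e.1 ∈ J → f.1 ∈ J → ce e = x → ce f = x → e ≠ f →
    ∃ e' f' : En D, ((e' = e ∧ f' = f) ∨ (e' = f ∧ f' = e)) ∧ ∃ U U' : Set (V d),
      Rw κ ω U (pe D e') (g.hub x false) mb ∧ Rw κ ω U' (pe D f') (g.hub x true) mb ∧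
      U ⊆ insert (pe D e') (g.reg x) ∧ U' ⊆ insert (pe D f') (g.reg x) ∧
      Disjoint U U' ∧ Disjoint U (g.zone x true) ∧ Disjoint U' (g.zone x false)
  join : ∀ e f : En D, e.1 ∈ J → f.1 ∈ J → ce e = x → ce f = x → e ≠ f →
    ∃ U : Set (V d), Rw κ ω U (pe D e) (pe D f) mb ∧ U ⊆ insert (pe D e) (insert (pe D f) (g.reg x))

/-- the nine patterns of a node `x` with children `y` (left) and `z` (right). `K` bounds the length of
every track. -/
structure NodeOK (κ : Kind) (ω : El d → Bool) (g : Geo X d) (x y z : X) (K : ℕ) : Prop where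
  oneL : ∃ U : Set (V d), Rw κ ω U (g.hub y false) (g.hub x false) K ∧ U ⊆ g.reg x ∪ g.zone y false
  oneR : ∃ U : Set (V d), Rw κ ω U (g.hub z false) (g.hub x false) K ∧ U ⊆ g.reg x ∪ g.zone z false
  twoL : ∃ U U' : Set (V d), Rw κ ω U (g.hub y false) (g.hub x false) K ∧
    Rw κ ω U' (g.hub y true) (g.hub x true) K ∧
    U ⊆ g.reg x ∪ g.zone y false ∧ U' ⊆ g.reg x ∪ g.zone y true ∧ Disjoint U U' ∧
    Disjoint U (g.zone x true) ∧ Disjoint U' (g.zone x false)
  twoR : ∃ U U' : Set (V d), Rw κ ω U (g.hub z false) (g.hub x false) K ∧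
    Rw κ ω U' (g.hub z true) (g.hub x true) K ∧
    U ⊆ g.reg x ∪ g.zone z false ∧ U' ⊆ g.reg x ∪ g.zone z true ∧ Disjoint U U' ∧
    Disjoint U (g.zone x true) ∧ Disjoint U' (g.zone x false)
  pass : ∃ U U' : Set (V d), Rw κ ω U (g.hub y false) (g.hub x false) K ∧
    Rw κ ω U' (g.hub z false) (g.hub x true) K ∧
    U ⊆ g.reg x ∪ g.zone y false ∧ U' ⊆ g.reg x ∪ g.zone z false ∧ Disjoint U U' ∧
    Disjoint U (g.zone x true) ∧ Disjoint U' (g.zone x false)
  join : ∃ U : Set (V d), Rw κ ω U (g.hub y false) (g.hub z false) K ∧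
    U ⊆ g.reg x ∪ g.zone y false ∪ g.zone z false
  j21 : ∃ U U' : Set (V d), Rw κ ω U (g.hub y true) (g.hub z false) K ∧
    Rw κ ω U' (g.hub y false) (g.hub x false) K ∧
    U ⊆ g.reg x ∪ g.zone y true ∪ g.zone z false ∧ U' ⊆ g.reg x ∪ g.zone y false ∧
    Disjoint U U' ∧ Disjoint U (g.zone x false)
  j12 : ∃ U U' : Set (V d), Rw κ ω U (g.hub y false) (g.hub z false) K ∧
    Rw κ ω U' (g.hub z true) (g.hub x false) K ∧
    U ⊆ g.reg x ∪ g.zone y false ∪ g.zone z false ∧ U' ⊆ g.reg x ∪ g.zone z true ∧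
    Disjoint U U' ∧ Disjoint U (g.zone x false)
  j22 : ∃ U U' U'' : Set (V d), Rw κ ω U (g.hub y true) (g.hub z false) K ∧
    Rw κ ω U' (g.hub y false) (g.hub x false) K ∧ Rw κ ω U'' (g.hub z true) (g.hub x true) K ∧
    U ⊆ g.reg x ∪ g.zone y true ∪ g.zone z false ∧ U' ⊆ g.reg x ∪ g.zone y false ∧
    U'' ⊆ g.reg x ∪ g.zone z true ∧ Disjoint U U' ∧ Disjoint U U'' ∧ Disjoint U' U'' ∧
    Disjoint U (g.zone x false) ∧ Disjoint U (g.zone x true) ∧
    Disjoint U' (g.zone x true) ∧ Disjoint U'' (g.zone x false)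

/-- the geometry is fine along the tree (only the vertices above used cells matter) -/
def Tree.OK (κ : Kind) (ω : El d → Bool) (D : TData d) (J : Finset (Fin D.k)) (g : Geo X d)
    (ce : En D → X) (mb : X → ℕ) (K : X → ℕ) : Tree X → Prop
  | .leaf x => LeafOK κ ω D J g ce x (mb x)
  | .node x l r => Tree.OK κ ω D J g ce mb K l ∧ Tree.OK κ ω D J g ce mb K r ∧
      ((∃ e : En D, e.1 ∈ J ∧ (ce e ∈ l.leaves ∨ ce e ∈ r.leaves)) → NodeOK κ ω g x l.root r.root (K x))

/-- separation of the regions along the tree -/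
def Tree.Sep (g : Geo X d) : Tree X → Prop
  | .leaf _ => True
  | .node x l r => Tree.Sep g l ∧ Tree.Sep g r ∧ Disjoint (g.reg x) (g.Reg l) ∧
      Disjoint (g.reg x) (g.Reg r) ∧ Disjoint (g.Reg l) (g.Reg r) ∧ Disjoint l.verts r.verts ∧
      x ∉ l.verts ∧ x ∉ r.verts

open Classical in
/-- cost of processing the tree -/
noncomputable def Tree.cost (D : TData d) (J : Finset (Fin D.k)) (ce : En D → X) (mb : X → ℕ)
    (K : X → ℕ) : Tree X → ℕ
  | .leaf x => mb x * nE D J ce x
  | .node x l r => Tree.cost D J ce mb K l + Tree.cost D J ce mb K r +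
      (if ∃ e : En D, e.1 ∈ J ∧ (ce e ∈ l.leaves ∨ ce e ∈ r.leaves) then 3 * K x else 0)

/-- the tree `T` has been processed: no free end, or one at the port `-`, or two partners at the
ports `-` and `+` of the root -/
def Done (g : Geo X d) (ce : En D → X) (W : World κ ω Q D J) (T : Tree X) : Prop :=
  (∀ e ∈ W.fr, ce e ∉ T.leaves) ∨
  (∃ e, ce e ∈ T.leaves ∧ (∀ f ∈ W.fr, ce f ∈ T.leaves → f = e) ∧
    At W e (g.hub T.root false) (g.zone T.root false)) ∨
  ∃ e f, e ≠ f ∧ W.par e = f ∧ ce e ∈ T.leaves ∧ ce f ∈ T.leaves ∧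
    (∀ f' ∈ W.fr, ce f' ∈ T.leaves → f' = e ∨ f' = f) ∧
    At W e (g.hub T.root false) (g.zone T.root false) ∧
    At W f (g.hub T.root true) (g.zone T.root true)

end Pool.Agent.H47.HJ
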