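import Pool.Agent.H17.QA.Defs
import Pool.Agent.H94.BM.Splice

/-!
# HJ module Road: roads from the road system, in a frame `φ` and with spliced configurations

`l` is a list of pairs (vertex, radius) in frame coordinates with the chain property of `RoadSys.path`, all regular
in `tr φ ω'`. `RS.path` gives an open path in `tr φ ω'` inside the union of the balls; its image under `φ` is open in
`ω'` (`(tr φ ω') e = ω' (e.map φ)`), and in `ω` because every element of `ω'` inside the image region which is open in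
`ω'` is open in `ω` (hypothesis `hω`).
-/

open MeasureTheory Filter Topology
open Pool.Agent.H17.IIC Pool.Agent.H41.QC Pool.Agent.H47.GM Pool.Agent.H17.QA Pool.Agent.H94.BM

namespace Pool.Agent.H47.HJ

variable {d : ℕ}

/-- union of the balls of a list -/
def Rgn (l : List (V d × ℕ)) : Set (V d) := {v | ∃ q ∈ l, v ∈ Bx q.1 q.2}

/-- chain property of `RoadSys.path` -/
def RChain (l : List (V d × ℕ)) : Prop :=
  l.IsChain fun a b => (a.1 = b.1 ∨ LatAdj a.1 b.1) ∧ a.2 ≤ 2 * b.2 ∧ b.2 ≤ 2 * a.2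

/-- transport of `Rw` by an automorphism -/
theorem rw_tr {κ : Kind} {φ : V d ≃ V d} (hφ : IsAut φ) {ω : El d → Bool} {U : Set (V d)}
    {x y : V d} {N : ℕ} (h : Rw κ (tr φ ω) U x y N) : Rw κ ω (φ '' U) (φ x) (φ y) N := by
  obtain ⟨l, h, hx, hy, hU, hN⟩ := h
  refine ⟨l.map φ, ⟨h.nodup.map φ.injective, ?_, ?_⟩, ?_, ?_, ?_, ?_⟩
  · rw [List.isChain_map]
    exact h.chain.imp fun a b hab => (hφ.adj a b).2 hab
  · have ho := h.opn
    cases κ with
    | bond =>
      show (l.map φ).IsChain (fun a b => ω s(a, b) = true)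
      rw [List.isChain_map]
      exact ho
    | site =>
      intro a ha
      obtain ⟨b, hb, rfl⟩ := List.mem_map.1 ha
      exact ho b hb
  · rw [List.head?_map, hx]; rfl
  · rw [List.getLast?_map, hy]; rfl
  · intro v hv
    obtain ⟨b, hb, rfl⟩ := List.mem_map.1 hv
    exact ⟨b, hU b hb, rfl⟩
  · rw [List.length_map]; exact hN

/-- local change of the configuration -/
theorem rw_congr {κ : Kind} {ω ω' : El d → Bool} {U : Set (V d)} {x y : V d} {N : ℕ}
    (hω : ∀ e ∈ InE U, ω e = true → ω' e = true) (h : Rw κ ω U x y N) : Rw κ ω' U x y N := by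
  obtain ⟨l, h, hx, hy, hU, hN⟩ := h
  have hin : ∀ a b : V d, a ∈ l → b ∈ l → s(a, b) ∈ InE U := by
    intro a b ha hb v hv
    rcases Sym2.mem_iff.1 hv with rfl | rfl
    · exact hU _ ha
    · exact hU _ hb
  refine ⟨l, ⟨h.nodup, h.chain, ?_⟩, hx, hy, hU, hN⟩
  have ho := h.opn
  cases κ with
  | bond =>
    show l.IsChain (fun a b => ω' s(a, b) = true)
    rw [List.isChain_iff_getElem]
    intro i hi
    exact hω _ (hin _ _ (List.getElem_mem _) (List.getElem_mem _)) (List.isChain_iff_getElem.1 ho i hi)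
  | site =>
    intro a ha
    exact hω _ (hin a a ha ha) (ho a ha)

/-- ROAD OF A LIST -/
theorem road_of_list {κ : Kind} {p : unitInterval} (RS : RoadSys κ d p) {φ : V d ≃ V d}
    (hφ : IsAut φ) {ω ω' : El d → Bool} {l : List (V d × ℕ)} (hl : RChain l)
    (hreg : ∀ q ∈ l, 1 ≤ q.2 ∧ tr φ ω' ∈ RS.reg q.1 q.2)
    (hω : ∀ e ∈ InE (φ '' Rgn l), ω' e = true → ω e = true) {a b : V d × ℕ}
    (ha : l.head? = some a) (hb : l.getLast? = some b) :
    Rw κ ω (φ '' Rgn l) (φ (RS.hub a.1 a.2 (tr φ ω'))) (φ (RS.hub b.1 b.2 (tr φ ω')))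
      (l.map fun q => RS.lam q.1 q.2 (tr φ ω')).sum :=
  rw_congr hω (rw_tr hφ (RS.path (tr φ ω') l hl hreg a b ha hb))

end Pool.Agent.H47.HJ
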