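import Pool.Agent.H47.HJ.Defs
import Pool.Agent.H94.BM.Splice

/-!
# HJ module RwP: positions of the ends of the strands
-/

open MeasureTheory Filter Topology
open Pool.Agent.H17.IIC Pool.Agent.H41.QC Pool.Agent.H47.GM Pool.Agent.H17.QA Pool.Agent.H94.BM

namespace Pool.Agent.H47.HJ

variable {d : ℕ} {κ : Kind} {ω : El d → Bool} {Q : Set (V d)} {D : TData d}

/-- the ends of the strands are in `Q` -/
lemma pe_mem (hD : TOK Q D) (e : En D) : pe D e ∈ Q := by
  obtain ⟨j, s⟩ := e
  cases s with
  | false => exact (hD.2 j).1.1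
  | true => exact (hD.2 j).2.1.1

/-- the ends lie on the strands -/
lemma RwP_mem {w : Fin D.k → List (V d)} (hw : w ∈ TFam κ ω Q D) (e : En D) :
    pe D e ∈ w e.1 := by
  obtain ⟨j, s⟩ := e
  have h := hw.1 j
  cases s with
  | false => exact List.mem_of_mem_head? h.2.2.1
  | true => exact List.mem_of_getLast? h.2.2.2.1

/-- the ends of the strands are distinct vertices -/
lemma pe_inj (hD : TOK Q D) (hF : (TFam κ ω Q D).Nonempty) :
    Function.Injective (pe D : En D → V d) := by
  obtain ⟨w, hw⟩ := hF
  have hne : ∀ j, D.x j ≠ D.y j := by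
    intro j hj
    obtain ⟨h1, h2, h3, h4, -⟩ := hw.1 j
    have h5 := (hD.2 j).2.2
    have hlen : (w j).length = D.n j + 1 := h2
    have hx : (w j)[0]'(by omega) = D.x j := by
      have := h3
      rw [List.head?_eq_getElem?, List.getElem?_eq_getElem (by omega)] at this
      exact Option.some.inj this
    have hy : (w j)[(w j).length - 1]'(by omega) = D.y j := by
      have := h4
      rw [List.getLast?_eq_getElem?, List.getElem?_eq_getElem (by omega)] at this
      exact Option.some.inj this
    rw [← hx, ← hy, h1.nodup.getElem_inj_iff] at hj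
    omega
  intro e f hef
  have he := RwP_mem hw e
  have hf := RwP_mem hw f
  have h1 : e.1 = f.1 := by
    by_contra hne'
    rw [hef] at he
    exact hw.2 _ _ hne' he hf
  obtain ⟨j, s⟩ := e
  obtain ⟨j', s'⟩ := f
  simp only at h1
  subst h1
  have h2 := hne j
  cases s <;> cases s'
  · rfl
  · exact absurd hef h2
  · exact absurd hef.symm h2
  · rfl

/-- trivial path -/
lemma rw_pe (hD : TOK Q D) (hF : (TFam κ ω Q D).Nonempty) (e : En D) :
    Rw κ ω {pe D e} (pe D e) (pe D e) 0 := by
  obtain ⟨w, hw⟩ := hF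
  refine ⟨[pe D e], ⟨by simp, by simp, ?_⟩, rfl, rfl, ?_, by simp⟩
  · have ho := (hw.1 e.1).1.opn
    cases κ with
    | bond => show [pe D e].IsChain _; simp
    | site =>
      intro a ha
      rw [List.mem_singleton] at ha
      rw [ha]
      exact ho _ (RwP_mem hw e)
  · intro v hv
    rw [List.mem_singleton] at hv
    exact hv

end Pool.Agent.H47.HJ
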