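import Pool.Agent.H17.QA.Closed
import Pool.Agent.H94.BM.Walks

/-!
# HJ module RwT: toolbox for `Rw` and for lists of vertices

`rw_trans`, `rw_mono` of `H94/BM/Walks` are available. `rw_chain` is the form used by the geometry: an automorphism
`φ`, a list of pairs (vertex, radius) regular in `tr φ ω'`, and `ω' ≤ ω` on the region.
-/

open MeasureTheory Filter Topology
open Pool.Agent.H17.IIC Pool.Agent.H41.QC Pool.Agent.H47.GM Pool.Agent.H17.QA Pool.Agent.H94.BM

namespace Pool.Agent.H47.HJ

variable {d : ℕ} {κ : Kind} {ω : El d → Bool} {Q : Set (V d)} {D : TData d}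

lemma op_reverse {l : List (V d)} (h : OP κ ω l) : OP κ ω l.reverse := by
  refine ⟨List.nodup_reverse.2 h.nodup, ?_, ?_⟩
  · rw [List.isChain_reverse]
    exact List.IsChain.imp (fun a b hab => Split_latAdj_symm hab) h.chain
  · have ho := h.opn
    cases κ with
    | bond =>
      show List.IsChain (fun a b => ω s(a, b) = true) l.reverse
      rw [List.isChain_reverse]
      refine List.IsChain.imp (fun a b hab => ?_) (show l.IsChain (fun a b => ω s(a, b) = true) from ho)
      show ω s(b, a) = true
      rw [Sym2.eq_swap]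
      exact hab
    | site => exact fun a ha => ho a (List.mem_reverse.1 ha)

lemma rw_symm {U : Set (V d)} {x y : V d} {N : ℕ} (h : Rw κ ω U x y N) : Rw κ ω U y x N := by
  obtain ⟨l, h, hx, hy, hU, hN⟩ := h
  refine ⟨l.reverse, op_reverse h, ?_, ?_, fun v hv => hU v (List.mem_reverse.1 hv), ?_⟩
  · rw [List.head?_reverse]; exact hy
  · rw [List.getLast?_reverse]; exact hx
  · rw [List.length_reverse]; exact hN

lemma rw_union {U U' : Set (V d)} {x y z : V d} {N M : ℕ}
    (h1 : Rw κ ω U x y N) (h2 : Rw κ ω U' y z M) : Rw κ ω (U ∪ U') x z (N + M) :=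
  rw_trans (rw_mono (fun _ h => h) Set.subset_union_left le_rfl h1)
    (rw_mono (fun _ h => h) Set.subset_union_right le_rfl h2)

lemma rw_left {U : Set (V d)} {x y : V d} {N : ℕ} (h : Rw κ ω U x y N) : x ∈ U := by
  obtain ⟨l, h, hx, hy, hU, hN⟩ := h
  exact hU x (List.mem_of_mem_head? hx)

lemma rw_right {U : Set (V d)} {x y : V d} {N : ℕ} (h : Rw κ ω U x y N) : y ∈ U :=
  rw_left (rw_symm h)

/-- concatenation of two open paths which meet only at the common end -/
lemma op_glue {l l' : List (V d)} {x : V d} (h : OP κ ω l) (h' : OP κ ω l')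
    (hl : l.getLast? = some x) (hl' : l'.head? = some x) (hd : ∀ v ∈ l, v ∈ l' → v = x) :
    OP κ ω (l ++ l'.tail) := by
  obtain ⟨t, rfl⟩ : ∃ t, l' = x :: t := by
    cases l' with
    | nil => simp at hl'
    | cons a t =>
      simp only [List.head?_cons, Option.some.injEq] at hl'
      exact ⟨t, by rw [hl']⟩
  rw [List.tail_cons]
  have key : ∀ R : V d → V d → Prop, l.IsChain R → (x :: t).IsChain R → (l ++ t).IsChain R := by
    intro R h1 h2
    rw [List.isChain_append]
    refine ⟨h1, h2.tail, fun a ha b hb => ?_⟩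
    rw [hl, Option.mem_some_iff] at ha
    subst ha
    exact (List.isChain_cons.1 h2).1 b hb
  refine ⟨?_, key _ h.chain h'.chain, ?_⟩
  · rw [List.nodup_append]
    refine ⟨h.nodup, h'.nodup.of_cons, fun a ha b hb hab => ?_⟩
    subst hab
    have := hd a ha (List.mem_cons_of_mem _ hb)
    subst this
    exact (List.nodup_cons.1 h'.nodup).1 hb
  · have ho := h.opn
    have ho' := h'.opn
    cases κ with
    | bond => exact key _ ho ho'
    | site =>
      intro a ha
      rcases List.mem_append.1 ha with ha | ha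
      · exact ho a ha
      · exact ho' a (List.mem_cons_of_mem _ ha)

end Pool.Agent.H47.HJ
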