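import Pool.Agent.H47.HJ.Defs
import Pool.Agent.H94.BM.Splice

/-!
# HJ module Best: the best component

Every `j ∈ J` lies in `S e` and in `S (par e)`, so `∑_(e ∈ fr) ∑_(S e) v ≥ 2 ∑_J v`; every tree contains at most
two free ends, so `|fr| ≤ 2 t` and some free end `e` has `∑_J v ≤ t ∑_(S e) v`. Its place and the place of `par e`:
same tree: ports `-` and `+` (exchange `e` and `par e` if necessary); different trees: both at the port `-`.
-/

open MeasureTheory Filter Topology
open Pool.Agent.H17.IIC Pool.Agent.H41.QC Pool.Agent.H47.GM Pool.Agent.H17.QA Pool.Agent.H94.BM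

namespace Pool.Agent.H47.HJ

variable {d : ℕ} {κ : Kind} {ω : El d → Bool} {Q : Set (V d)} {D : TData d}
  {J : Finset (Fin D.k)} {X : Type*}

theorem best {ι : Type*} [Fintype ι] (g : Geo X d) (ce : En D → X) (trees : ι → Tree X)
    (hsep' : ∀ i j, i ≠ j → Disjoint (trees i).leaves (trees j).leaves)
    (hcov : ∀ e : En D, e.1 ∈ J → ∃ i, ce e ∈ (trees i).leaves)
    (W : World κ ω Q D J) (hdone : ∀ i, Done g ce W (trees i)) (hJ : J.Nonempty)
    (v : Fin D.k → ℝ) (hv : ∀ j ∈ J, 0 ≤ v j) :
    ∃ e ∈ W.fr, ∑ j ∈ J, v j ≤ (Fintype.card ι : ℝ) * ∑ j ∈ W.S e, v j ∧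
      ((∃ i, At W e (g.hub (trees i).root false) (g.zone (trees i).root false) ∧
          At W (W.par e) (g.hub (trees i).root true) (g.zone (trees i).root true)) ∨
        ∃ i i', i ≠ i' ∧ At W e (g.hub (trees i).root false) (g.zone (trees i).root false) ∧
          At W (W.par e) (g.hub (trees i').root false) (g.zone (trees i').root false)) := by
  classical
  set w : En D → ℝ := fun e => ∑ j ∈ W.S e, v j with hw
  -- (1) the total weight
  have h1 : 2 * ∑ j ∈ J, v j ≤ ∑ e ∈ W.fr, w e := by
    have e1 : ∀ e ∈ W.fr, w e = ∑ j ∈ J, if j ∈ W.S e then v j else 0 := by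
      intro e he
      rw [← Finset.sum_filter]
      have : J.filter (fun j => j ∈ W.S e) = W.S e := by
        ext j
        rw [Finset.mem_filter]
        exact ⟨fun h => h.2, fun h => ⟨W.S_sub e he h, h⟩⟩
      rw [this]
    rw [Finset.sum_congr rfl e1, Finset.sum_comm, Finset.mul_sum]
    refine Finset.sum_le_sum fun j hj => ?_
    obtain ⟨e, he, hje⟩ := W.cover j hj
    have hpe := W.par_mem e he
    have hne := W.par_ne e he
    have hjp : j ∈ W.S (W.par e) := by rw [W.S_par e he]; exact hje
    have hsub : ({e, W.par e} : Finset (En D)) ⊆ W.fr := by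
      intro x hx
      rw [Finset.mem_insert, Finset.mem_singleton] at hx
      rcases hx with rfl | rfl
      · exact he
      · exact hpe
    have h2 : ∑ x ∈ ({e, W.par e} : Finset (En D)), (if j ∈ W.S x then v j else 0) = 2 * v j := by
      rw [Finset.sum_pair hne.symm, if_pos hje, if_pos hjp]
      ring
    rw [← h2]
    refine Finset.sum_le_sum_of_subset_of_nonneg hsub fun x _ _ => ?_
    split
    · exact hv j hj
    · exact le_rfl
  -- (2) few free ends
  have hcov' : ∀ e ∈ W.fr, ∃ i, ce e ∈ (trees i).leaves := fun e he =>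
    hcov e (W.S_sub e he (W.S_mem e he))
  have h2 : W.fr.card ≤ 2 * Fintype.card ι := by
    have hsub : W.fr ⊆ (Finset.univ : Finset ι).biUnion
        (fun i => W.fr.filter fun e => ce e ∈ (trees i).leaves) := by
      intro e he
      obtain ⟨i, hi⟩ := hcov' e he
      rw [Finset.mem_biUnion]
      exact ⟨i, Finset.mem_univ i, Finset.mem_filter.2 ⟨he, hi⟩⟩
    refine (Finset.card_le_card hsub).trans ?_
    refine (Finset.card_biUnion_le_card_mul _ _ 2 ?_).trans ?_
    · intro i _
      rcases hdone i with h | ⟨e, -, h, -⟩ | ⟨e, f, -, -, -, -, h, -, -⟩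
      · rw [Finset.filter_false_of_mem h]
        simp
      · have : (W.fr.filter fun e => ce e ∈ (trees i).leaves) ⊆ {e} := by
          intro x hx
          rw [Finset.mem_filter] at hx
          rw [Finset.mem_singleton]
          exact h x hx.1 hx.2
        exact (Finset.card_le_card this).trans (by simp)
      · have : (W.fr.filter fun e => ce e ∈ (trees i).leaves) ⊆ {e, f} := by
          intro x hx
          rw [Finset.mem_filter] at hx
          rw [Finset.mem_insert, Finset.mem_singleton]
          exact h x hx.1 hx.2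
        exact (Finset.card_le_card this).trans Finset.card_le_two
    · rw [Finset.card_univ, mul_comm]
  -- (3) the best end
  have hfr : W.fr.Nonempty := by
    obtain ⟨j, hj⟩ := hJ
    obtain ⟨e, he, -⟩ := W.cover j hj
    exact ⟨e, he⟩
  obtain ⟨e, he, hmax⟩ := Finset.exists_max_image W.fr w hfr
  have hw0 : 0 ≤ w e := Finset.sum_nonneg fun j hj => hv j (W.S_sub e he hj)
  have h3 : ∑ j ∈ J, v j ≤ (Fintype.card ι : ℝ) * w e := by
    have h4 : ∑ x ∈ W.fr, w x ≤ W.fr.card * w e := by
      rw [← nsmul_eq_mul]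
      exact Finset.sum_le_card_nsmul _ _ _ hmax
    have h5 : (W.fr.card : ℝ) * w e ≤ (2 * Fintype.card ι) * w e := by
      refine mul_le_mul_of_nonneg_right ?_ hw0
      exact_mod_cast h2
    linarith
  obtain ⟨i, hi⟩ := hcov' e he
  rcases hdone i with h | ⟨e₁, -, h, hat⟩ | ⟨e₁, f₁, hne, hpar, -, -, h, hat, hat'⟩
  · exact absurd hi (h e he)
  · have hee : e = e₁ := h e he hi
    subst hee
    have hpe := W.par_mem e he
    obtain ⟨i', hi'⟩ := hcov' _ hpe
    have hii : i ≠ i' := by
      rintro rfl
      exact W.par_ne e he (h _ hpe hi')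
    refine ⟨e, he, h3, Or.inr ⟨i, i', hii, hat, ?_⟩⟩
    rcases hdone i' with h' | ⟨e₂, -, h', hat2⟩ | ⟨e₂, f₂, hne2, hpar2, hl2, hl2', h', hat2, hat2'⟩
    · exact absurd hi' (h' _ hpe)
    · rw [h' _ hpe hi']
      exact hat2
    · exfalso
      have hmem : ce e ∈ (trees i').leaves := by
        rcases h' _ hpe hi' with h6 | h6
        · have : e = f₂ := by rw [← W.par_par e he, h6, hpar2]
          rw [this]; exact hl2'
        · have : e = e₂ := by
            have h7 := W.par_par e₂ hat2.mem
            rw [hpar2] at h7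
            rw [← W.par_par e he, h6, h7]
          rw [this]; exact hl2
      exact Set.disjoint_left.1 (hsep' i i' hii) hi hmem
  · have hS : w e₁ = w e := by
      rcases h e he hi with h6 | h6
      · rw [h6]
      · rw [h6, hw]
        simp only
        rw [← hpar, W.S_par e₁ hat.mem]
    refine ⟨e₁, hat.mem, ?_, Or.inl ⟨i, hat, ?_⟩⟩
    · have : ∑ j ∈ W.S e₁, v j = w e := hS
      rw [this]; exact h3
    · rw [hpar]; exact hat'

end Pool.Agent.H47.HJ
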