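import Pool.Agent.H47.HJ.Defs
import Pool.Agent.H94.BM.Splice

/-!
# HJ module Cost: the cost of the forest in terms of the used nodes
-/

open MeasureTheory Filter Topology
open Pool.Agent.H17.IIC Pool.Agent.H41.QC Pool.Agent.H47.GM Pool.Agent.H17.QA Pool.Agent.H94.BM

namespace Pool.Agent.H47.HJ

variable {d : ℕ} {κ : Kind} {ω : El d → Bool} {Q : Set (V d)} {D : TData d}
  {J : Finset (Fin D.k)} {X : Type*}

lemma Tree.leaves_sub_verts (T : Tree X) : T.leaves ⊆ T.verts := by
  induction T with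
  | leaf x => exact subset_rfl
  | node x l r ihl ihr =>
    intro y hy
    rcases hy with hy | hy
    · exact Or.inl (Or.inr (ihl hy))
    · exact Or.inr (ihr hy)

lemma Tree.isSub_refl (T : Tree X) : Tree.IsSub T T := by
  cases T with
  | leaf x => exact rfl
  | node x l r => exact Or.inl rfl

lemma cost_sum_two {Y : Type*} (A : Finset Y) (F : Y → ℕ) {s t u : Set Y}
    [DecidablePred (· ∈ s)] [DecidablePred (· ∈ t)] [DecidablePred (· ∈ u)] (h : Disjoint s t)
    (hs : s ⊆ u) (ht : t ⊆ u) :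
    ∑ x ∈ A.filter (· ∈ s), F x + ∑ x ∈ A.filter (· ∈ t), F x ≤ ∑ x ∈ A.filter (· ∈ u), F x := by
  classical
  have hd : Disjoint (A.filter (· ∈ s)) (A.filter (· ∈ t)) := by
    rw [Finset.disjoint_left]
    intro x hx hx'
    exact Set.disjoint_left.1 h (Finset.mem_filter.1 hx).2 (Finset.mem_filter.1 hx').2
  rw [← Finset.sum_union hd]
  apply Finset.sum_le_sum_of_subset
  intro x hx
  rcases Finset.mem_union.1 hx with hx | hx
  · exact Finset.mem_filter.2 ⟨(Finset.mem_filter.1 hx).1, hs (Finset.mem_filter.1 hx).2⟩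
  · exact Finset.mem_filter.2 ⟨(Finset.mem_filter.1 hx).1, ht (Finset.mem_filter.1 hx).2⟩

open Classical in
lemma cost_sum_iUnion {Y ι : Type*} [Fintype ι] (A : Finset Y) (F : Y → ℕ) (s : ι → Set Y)
    (h : ∀ i j, i ≠ j → Disjoint (s i) (s j)) :
    ∑ i, ∑ x ∈ A.filter (· ∈ s i), F x ≤ ∑ x ∈ A, F x := by
  have hd : (Set.univ : Set ι).PairwiseDisjoint (fun i => A.filter (· ∈ s i)) := by
    intro i _ j _ hij
    rw [Function.onFun, Finset.disjoint_left]
    intro x hx hx'
    exact Set.disjoint_left.1 (h i j hij) (Finset.mem_filter.1 hx).2 (Finset.mem_filter.1 hx').2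
  rw [← Finset.sum_biUnion (by simpa using hd)]
  apply Finset.sum_le_sum_of_subset
  intro x hx
  obtain ⟨i, -, hi⟩ := Finset.mem_biUnion.1 hx
  exact (Finset.mem_filter.1 hi).1

open Classical in
lemma cost_tree_le (g : Geo X d) (ce : En D → X) (mb K : X → ℕ) (mb0 : ℕ)
    (hmb : ∀ x, mb x = mb0 + K x) (hcard : ∀ x, nE D J ce x ≤ 2) (used : Finset X)
    (T : Tree X) (hsep : Tree.Sep g T)
    (hused : ∀ x l r, Tree.IsSub (.node x l r) T →
      (∃ e : En D, e.1 ∈ J ∧ (ce e ∈ l.leaves ∨ ce e ∈ r.leaves)) → x ∈ used)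
    (hused' : ∀ x ∈ T.leaves, (∃ e : En D, e.1 ∈ J ∧ ce e = x) → x ∈ used) :
    Tree.cost D J ce mb K T ≤
      ∑ e ∈ (J ×ˢ (Finset.univ : Finset Bool)).filter (· ∈ {e : En D | ce e ∈ T.leaves}), mb0
      + ∑ x ∈ used.filter (· ∈ T.verts), 3 * K x := by
  induction T with
  | leaf x =>
    rw [Finset.sum_const, smul_eq_mul]
    have hc : Tree.cost D J ce mb K (.leaf x) = (mb0 + K x) * nE D J ce x := by
      rw [← hmb]; rfl
    have hn : ((J ×ˢ (Finset.univ : Finset Bool)).filter
        (· ∈ {e : En D | ce e ∈ (Tree.leaf x).leaves})).card = nE D J ce x := by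
      simp only [nE, Tree.leaves, Set.mem_singleton_iff, Set.mem_ofPred_eq]
    rw [hc, hn]
    rcases Nat.eq_zero_or_pos (nE D J ce x) with h0 | hpos
    · rw [h0]
      simp
    · have hx : x ∈ used := by
        obtain ⟨e, he⟩ := Finset.card_pos.1 hpos
        rw [Finset.mem_filter, Finset.mem_product] at he
        exact hused' x rfl ⟨e, he.1.1, he.2⟩
      have h3 : 3 * K x ≤ ∑ y ∈ used.filter (· ∈ (Tree.leaf x).verts), 3 * K y := by
        have : ({x} : Finset X) ⊆ used.filter (· ∈ (Tree.leaf x).verts) := by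
          intro y hy
          rw [Finset.mem_singleton] at hy
          subst hy
          exact Finset.mem_filter.2 ⟨hx, rfl⟩
        calc 3 * K x = ∑ y ∈ ({x} : Finset X), 3 * K y := by rw [Finset.sum_singleton]
          _ ≤ _ := Finset.sum_le_sum_of_subset this
      have h4 := hcard x
      have h5 : K x * nE D J ce x ≤ K x * 2 := Nat.mul_le_mul_left _ h4
      have h6 : (mb0 + K x) * nE D J ce x = nE D J ce x * mb0 + K x * nE D J ce x := by ring
      rw [h6]
      omega
  | node x l r ihl ihr =>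
    obtain ⟨hl, hr, -, -, -, hd, hxl, hxr⟩ := hsep
    have h1 := ihl hl (fun y l' r' hs he => hused y l' r' (Or.inr (Or.inl hs)) he)
      (fun y hy => hused' y (Or.inl hy))
    have h2 := ihr hr (fun y l' r' hs he => hused y l' r' (Or.inr (Or.inr hs)) he)
      (fun y hy => hused' y (Or.inr hy))
    have h3 : ∑ e ∈ (J ×ˢ (Finset.univ : Finset Bool)).filter
          (· ∈ {e : En D | ce e ∈ l.leaves}), mb0 +
        ∑ e ∈ (J ×ˢ (Finset.univ : Finset Bool)).filter (· ∈ {e : En D | ce e ∈ r.leaves}), mb0 ≤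
        ∑ e ∈ (J ×ˢ (Finset.univ : Finset Bool)).filter
          (· ∈ {e : En D | ce e ∈ (Tree.node x l r).leaves}), mb0 := by
      apply cost_sum_two
      · rw [Set.disjoint_left]
        intro e he he'
        exact Set.disjoint_left.1 hd (l.leaves_sub_verts he) (r.leaves_sub_verts he')
      · intro e he
        exact Or.inl he
      · intro e he
        exact Or.inr he
    have h4 : ∑ y ∈ used.filter (· ∈ l.verts), 3 * K y + ∑ y ∈ used.filter (· ∈ r.verts), 3 * K y
        ≤ ∑ y ∈ used.filter (· ∈ l.verts ∪ r.verts), 3 * K y :=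
      cost_sum_two used (fun y => 3 * K y) hd Set.subset_union_left Set.subset_union_right
    have h5 : ∑ y ∈ used.filter (· ∈ ({x} : Set X)), 3 * K y +
        ∑ y ∈ used.filter (· ∈ l.verts ∪ r.verts), 3 * K y ≤
        ∑ y ∈ used.filter (· ∈ (Tree.node x l r).verts), 3 * K y := by
      apply cost_sum_two
      · rw [Set.disjoint_singleton_left]
        rintro (h | h)
        · exact hxl h
        · exact hxr h
      · intro y hy
        exact Or.inl (Or.inl hy)
      · rintro y (hy | hy)
        · exact Or.inl (Or.inr hy)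
        · exact Or.inr hy
    have h6 : (if ∃ e : En D, e.1 ∈ J ∧ (ce e ∈ l.leaves ∨ ce e ∈ r.leaves) then 3 * K x else 0) ≤
        ∑ y ∈ used.filter (· ∈ ({x} : Set X)), 3 * K y := by
      split_ifs with hc
      · have hx : x ∈ used := hused x l r (Or.inl rfl) hc
        have : ({x} : Finset X) ⊆ used.filter (· ∈ ({x} : Set X)) := by
          intro y hy
          rw [Finset.mem_singleton] at hy
          subst hy
          exact Finset.mem_filter.2 ⟨hx, rfl⟩
        calc 3 * K x = ∑ y ∈ ({x} : Finset X), 3 * K y := by rw [Finset.sum_singleton]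
          _ ≤ _ := Finset.sum_le_sum_of_subset this
      · exact Nat.zero_le _
    have h7 : Tree.cost D J ce mb K (.node x l r) =
        Tree.cost D J ce mb K l + Tree.cost D J ce mb K r +
        (if ∃ e : En D, e.1 ∈ J ∧ (ce e ∈ l.leaves ∨ ce e ∈ r.leaves) then 3 * K x else 0) := rfl
    rw [h7]
    omega

open Classical in
/-- cost of the forest in terms of a set `used` of labels containing all nodes above used cells and
all used cells -/
theorem cost_le {ι : Type*} [Fintype ι] (g : Geo X d) (ce : En D → X) (mb K : X → ℕ) (mb0 : ℕ)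
    (hmb : ∀ x, mb x = mb0 + K x) (hcard : ∀ x, nE D J ce x ≤ 2)
    (trees : ι → Tree X) (hsep : ∀ i, Tree.Sep g (trees i))
    (hsep' : ∀ i j, i ≠ j → Disjoint (trees i).verts (trees j).verts) (used : Finset X)
    (hused : ∀ i x l r, Tree.IsSub (.node x l r) (trees i) →
      (∃ e : En D, e.1 ∈ J ∧ (ce e ∈ l.leaves ∨ ce e ∈ r.leaves)) → x ∈ used)
    (hused' : ∀ i, ∀ x ∈ (trees i).leaves, (∃ e : En D, e.1 ∈ J ∧ ce e = x) → x ∈ used) :
    ∑ i, Tree.cost D J ce mb K (trees i) ≤ 2 * mb0 * J.card + 3 * ∑ x ∈ used, K x := by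
  have h1 : ∑ i, Tree.cost D J ce mb K (trees i) ≤ ∑ i, (∑ e ∈
      (J ×ˢ (Finset.univ : Finset Bool)).filter (· ∈ {e : En D | ce e ∈ (trees i).leaves}), mb0
      + ∑ x ∈ used.filter (· ∈ (trees i).verts), 3 * K x) :=
    Finset.sum_le_sum fun i _ => cost_tree_le g ce mb K mb0 hmb hcard used (trees i) (hsep i)
      (hused i) (hused' i)
  rw [Finset.sum_add_distrib] at h1
  have h2 := cost_sum_iUnion (J ×ˢ (Finset.univ : Finset Bool)) (fun _ => mb0)
    (fun i => {e : En D | ce e ∈ (trees i).leaves}) (by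
      intro i j hij
      rw [Set.disjoint_left]
      intro e he he'
      exact Set.disjoint_left.1 (hsep' i j hij) ((trees i).leaves_sub_verts he)
        ((trees j).leaves_sub_verts he'))
  have h3 := cost_sum_iUnion used (fun x => 3 * K x) (fun i => (trees i).verts) hsep'
  rw [Finset.sum_const, smul_eq_mul, Finset.card_product, Finset.card_univ, Fintype.card_bool]
    at h2
  rw [← Finset.mul_sum] at h3
  calc ∑ i, Tree.cost D J ce mb K (trees i) ≤ _ := h1
    _ ≤ J.card * 2 * mb0 + 3 * ∑ x ∈ used, K x := Nat.add_le_add h2 h3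
    _ = _ := by ring

end Pool.Agent.H47.HJ
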