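import Pool.Agent.H47.HJ.Defs
import Pool.Agent.H47.HJ.RwT

/-!
# HJ module OpP: extending a lane

`U' = Function.update U e (U e ∪ U₀)`, `h' = Function.update h e h₀`, `M' = Function.update M e (M e + M₀)`, the rest unchanged
(`rw_union`).
-/

open MeasureTheory Filter Topology
open Pool.Agent.H17.IIC Pool.Agent.H41.QC Pool.Agent.H47.GM Pool.Agent.H17.QA Pool.Agent.H94.BM

namespace Pool.Agent.H47.HJ

variable {d : ℕ} {κ : Kind} {ω : El d → Bool} {Q : Set (V d)} {D : TData d}
  {J : Finset (Fin D.k)}

theorem pass_op (W : World κ ω Q D J) {e : En D} (he : e ∈ W.fr) {U₀ : Set (V d)} {h₀ : V d}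
    {M₀ : ℕ} (hr : Rw κ ω U₀ (W.h e) h₀ M₀) (hQ : ∀ v ∈ U₀, v ∈ Q → v = pe D e)
    (hU : ∀ f ∈ W.fr, f ≠ e → Disjoint (W.U f) U₀) (hR : ∀ f ∈ W.fr, Disjoint (W.R f) U₀) :
    ∃ W' : World κ ω Q D J, W'.fr = W.fr ∧ W'.par = W.par ∧ W'.R = W.R ∧ W'.S = W.S ∧
      W'.U = Function.update W.U e (W.U e ∪ U₀) ∧ W'.h = Function.update W.h e h₀ ∧
      W'.phi = W.phi + 2 * M₀ := by
  classical
  refine ⟨{
    fr := W.fr
    par := W.par
    S := W.S
    R := W.R
    L := W.L
    U := Function.update W.U e (W.U e ∪ U₀)
    h := Function.update W.h e h₀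
    M := Function.update W.M e (W.M e + M₀)
    par_mem := W.par_mem
    par_ne := W.par_ne
    par_par := W.par_par
    S_par := W.S_par
    R_par := W.R_par
    L_par := W.L_par
    S_sub := W.S_sub
    S_mem := W.S_mem
    cover := W.cover
    S_disj := W.S_disj
    R_disj := W.R_disj
    RU_disj := ?_
    U_disj := ?_
    R_out := W.R_out
    U_out := ?_
    lane := ?_
    pf := W.pf }, rfl, rfl, rfl, rfl, ?_, ?_, ?_⟩
  · intro g hg f hf
    by_cases hfe : f = e
    · subst hfe
      rw [Function.update_self, Set.disjoint_union_right]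
      exact ⟨W.RU_disj g hg f hf, hR g hg⟩
    · rw [Function.update_of_ne hfe]
      exact W.RU_disj g hg f hf
  · intro g hg f hf hne
    by_cases hfe : f = e
    · subst hfe
      rw [Function.update_self, Function.update_of_ne hne, Set.disjoint_union_right]
      exact ⟨W.U_disj g hg f hf hne, hU g hg hne⟩
    · rw [Function.update_of_ne hfe]
      by_cases hge : g = e
      · subst hge
        rw [Function.update_self, Set.disjoint_union_left]
        exact ⟨W.U_disj g hg f hf hne, (hU f hf hfe).symm⟩
      · rw [Function.update_of_ne hge]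
        exact W.U_disj g hg f hf hne
  · intro g hg v hv hvQ
    by_cases hge : g = e
    · subst hge
      rw [Function.update_self] at hv
      rcases hv with hv | hv
      · exact W.U_out g hg v hv hvQ
      · exact hQ v hv hvQ
    · rw [Function.update_of_ne hge] at hv
      exact W.U_out g hg v hv hvQ
  · intro g hg
    by_cases hge : g = e
    · subst hge
      rw [Function.update_self, Function.update_self, Function.update_self]
      exact rw_union (W.lane g hg) hr
    · rw [Function.update_of_ne hge, Function.update_of_ne hge, Function.update_of_ne hge]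
      exact W.lane g hg
  · rfl
  · rfl
  · unfold World.phi
    simp only
    rw [← Finset.add_sum_erase W.fr _ he, ← Finset.add_sum_erase W.fr _ he, Function.update_self]
    have : ∑ x ∈ W.fr.erase e, (W.L x + 2 * Function.update W.M e (W.M e + M₀) x)
        = ∑ x ∈ W.fr.erase e, (W.L x + 2 * W.M x) := by
      refine Finset.sum_congr rfl fun g hg => ?_
      rw [Function.update_of_ne (Finset.ne_of_mem_erase hg)]
    rw [this]
    omega

end Pool.Agent.H47.HJ
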