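import Pool.Agent.H47.HJ.OpJ
import Pool.Agent.H47.HJ.OpP

/-!
# HJ module ExtO: the two operations in terms of `Ext`
-/

open MeasureTheory Filter Topology
open Pool.Agent.H17.IIC Pool.Agent.H41.QC Pool.Agent.H47.GM Pool.Agent.H17.QA Pool.Agent.H94.BM

namespace Pool.Agent.H47.HJ

variable {d : ℕ} {κ : Kind} {ω : El d → Bool} {Q : Set (V d)} {D : TData d}
  {J : Finset (Fin D.k)} {X : Type*}

/-- `pass_op` in the form used later -/
theorem pass_ext (W : World κ ω Q D J) {e : En D} (he : e ∈ W.fr) {U₀ : Set (V d)} {h₀ : V d}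
    {M₀ : ℕ} (hr : Rw κ ω U₀ (W.h e) h₀ M₀) (hQ : ∀ v ∈ U₀, v ∈ Q → v = pe D e)
    (hU : ∀ f ∈ W.fr, f ≠ e → Disjoint (W.U f) U₀) (hR : ∀ f ∈ W.fr, Disjoint (W.R f) U₀) :
    ∃ W' : World κ ω Q D J, Ext W W' {e} U₀ ∧ W'.fr = W.fr ∧ W'.par = W.par ∧ W'.h e = h₀ ∧
      (∀ f ∈ W.fr, W'.R f = W.R f) ∧ (∀ f ∈ W.fr, f ≠ e → W'.U f = W.U f) ∧
      W'.U e = W.U e ∪ U₀ ∧ W'.phi ≤ W.phi + 2 * M₀ := by
  obtain ⟨W', h1, h2, h3, -, h5, h6, h7⟩ := pass_op W he hr hQ hU hR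
  have hne : ∀ f : En D, f ≠ e → W'.U f = W.U f := fun f hf => by
    rw [h5, Function.update_of_ne hf]
  have hee : W'.U e = W.U e ∪ U₀ := by rw [h5, Function.update_self]
  refine ⟨W', ⟨?_, ?_, ?_, ?_, ?_⟩, h1, h2, ?_, ?_, ?_, hee, h7.le⟩
  · rw [h1]
  · intro f hf hfe
    have hfe' : f ≠ e := fun h => hfe (by rw [h]; exact Set.mem_singleton e)
    exact ⟨by rw [h1]; exact hf, hne f hfe', by rw [h6, Function.update_of_ne hfe']⟩
  · intro f _ _ _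
    rw [h2]
  · intro f _
    by_cases hfe : f = e
    · rw [hfe, hee]
    · rw [hne f hfe]
      exact Set.subset_union_left
  · intro f hf v hv
    rw [h3] at hv
    rw [h1] at hf
    exact Or.inl ⟨f, hf, hv⟩
  · rw [h6, Function.update_self]
  · intro f _
    rw [h3]
  · intro f _ hf
    exact hne f hf

/-- `join_op` in the form used later -/
theorem join_ext (hD : TOK Q D) (W : World κ ω Q D J) {e f : En D} (he : e ∈ W.fr) (hf : f ∈ W.fr)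
    (hef : f ≠ e) (hpar : f ≠ W.par e) {U₀ : Set (V d)} {M₀ : ℕ}
    (hr : Rw κ ω U₀ (W.h e) (W.h f) M₀) (hQ : ∀ v ∈ U₀, v ∈ Q → v = pe D e ∨ v = pe D f)
    (hU : ∀ g ∈ W.fr, g ≠ e → g ≠ f → Disjoint (W.U g) U₀)
    (hR : ∀ g ∈ W.fr, Disjoint (W.R g) U₀) :
    ∃ W' : World κ ω Q D J, Ext W W' {e, f} U₀ ∧ (∀ g, g ∈ W'.fr ↔ g ∈ W.fr ∧ g ≠ e ∧ g ≠ f) ∧
      (W'.par (W.par e) = W.par f) ∧ (W'.par (W.par f) = W.par e) ∧
      (∀ g ∈ W'.fr, W'.U g = W.U g ∧ W'.h g = W.h g) ∧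
      (∀ g ∈ W'.fr, W'.R g ⊆ (⋃ f' ∈ W.fr, W.R f') ∪ W.U e ∪ W.U f ∪ U₀) ∧
      W'.phi ≤ W.phi + 2 * M₀ := by
  classical
  obtain ⟨W', h1, h2, -, h4, h5, h6, h7⟩ := join_op hD W he hf hef hpar hr hQ hU hR
  have hmem : ∀ g, g ∈ W'.fr ↔ g ∈ W.fr ∧ g ≠ e ∧ g ≠ f := by
    intro g
    rw [h1]
    simp only [Finset.mem_erase]
    tauto
  have hpp : W.par f ≠ W.par e := by
    intro h
    apply hef
    rw [← W.par_par f hf, h, W.par_par e he]
  have hRv : ∀ g ∈ W'.fr, ∀ v ∈ W'.R g, (v ∈ W.R g) ∨ v ∈ W.R e ∨ v ∈ W.R f ∨ v ∈ W.U e ∨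
      v ∈ W.U f ∨ v ∈ U₀ := by
    intro g _ v hv
    rw [h4] at hv
    by_cases c : g = W.par e ∨ g = W.par f
    · rw [if_pos c] at hv
      rcases hv with (hv | hv) | ⟨(hv | hv) | hv, -⟩
      · exact Or.inr (Or.inl hv)
      · exact Or.inr (Or.inr (Or.inl hv))
      · exact Or.inr (Or.inr (Or.inr (Or.inl hv)))
      · exact Or.inr (Or.inr (Or.inr (Or.inr (Or.inr hv))))
      · exact Or.inr (Or.inr (Or.inr (Or.inr (Or.inl hv))))
    · rw [if_neg c] at hv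
      exact Or.inl hv
  refine ⟨W', ⟨?_, ?_, ?_, ?_, ?_⟩, hmem, ?_, ?_, ?_, ?_, h7⟩
  · intro g hg
    exact ((hmem g).1 hg).1
  · intro g hg hge
    have hge1 : g ≠ e := fun h => hge (by rw [h]; exact Set.mem_insert _ _)
    have hge2 : g ≠ f := fun h => hge (by rw [h]; exact Set.mem_insert_of_mem _ rfl)
    exact ⟨(hmem g).2 ⟨hg, hge1, hge2⟩, by rw [h5], by rw [h6]⟩
  · intro g hg hg1 hg2
    rw [h2]
    have c1 : g ≠ W.par e := by
      intro h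
      apply hg2
      rw [h, W.par_par e he]
      exact Set.mem_insert _ _
    have c2 : g ≠ W.par f := by
      intro h
      apply hg2
      rw [h, W.par_par f hf]
      exact Set.mem_insert_of_mem _ rfl
    rw [if_neg c1, if_neg c2]
  · intro g _
    rw [h5]
    exact Set.subset_union_left
  · intro g hg v hv
    rcases hRv g hg v hv with h | h | h | h | h | h
    · exact Or.inl ⟨g, ((hmem g).1 hg).1, h⟩
    · exact Or.inl ⟨e, he, h⟩
    · exact Or.inl ⟨f, hf, h⟩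
    · exact Or.inr (Or.inl ⟨e, he, Set.mem_insert _ _, h⟩)
    · exact Or.inr (Or.inl ⟨f, hf, Set.mem_insert_of_mem _ rfl, h⟩)
    · exact Or.inr (Or.inr h)
  · rw [h2, if_pos rfl]
  · rw [h2, if_neg hpp, if_pos rfl]
  · intro g _
    exact ⟨by rw [h5], by rw [h6]⟩
  · intro g hg v hv
    rcases hRv g hg v hv with h | h | h | h | h | h
    · exact Or.inl (Or.inl (Or.inl (Set.mem_biUnion ((hmem g).1 hg).1 h)))
    · exact Or.inl (Or.inl (Or.inl (Set.mem_biUnion he h)))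
    · exact Or.inl (Or.inl (Or.inl (Set.mem_biUnion hf h)))
    · exact Or.inl (Or.inl (Or.inr h))
    · exact Or.inl (Or.inr h)
    · exact Or.inr h

end Pool.Agent.H47.HJ
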