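import Pool.Agent.H47.HJ.Defs
import Pool.Agent.H94.BM.Splice

/-!
# HJ module ExtR: the relation `Ext` and what it preserves
-/

open MeasureTheory Filter Topology
open Pool.Agent.H17.IIC Pool.Agent.H41.QC Pool.Agent.H47.GM Pool.Agent.H17.QA Pool.Agent.H94.BM

namespace Pool.Agent.H47.HJ

variable {d : ℕ} {κ : Kind} {ω : El d → Bool} {Q : Set (V d)} {D : TData d}
  {J : Finset (Fin D.k)} {X : Type*}

lemma ext_refl (W : World κ ω Q D J) (A : Set (En D)) (G : Set (V d)) : Ext W W A G where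
  fr_sub := Finset.Subset.refl _
  keep := fun _ he _ => ⟨he, rfl, rfl⟩
  par_keep := fun _ _ _ _ => rfl
  U_sub := fun _ _ => Set.subset_union_left
  R_sub := fun f hf _ hv => Or.inl ⟨f, hf, hv⟩

lemma ext_trans {W W' W'' : World κ ω Q D J} {A A' : Set (En D)} {G G' : Set (V d)}
    (h : Ext W W' A G) (h' : Ext W' W'' A' G') : Ext W W'' (A ∪ A') (G ∪ G') where
  fr_sub := h'.fr_sub.trans h.fr_sub
  keep := by
    intro e he hA
    obtain ⟨h1, h2, h3⟩ := h.keep e he (fun hc => hA (Or.inl hc))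
    obtain ⟨h4, h5, h6⟩ := h'.keep e h1 (fun hc => hA (Or.inr hc))
    exact ⟨h4, h5.trans h2, h6.trans h3⟩
  par_keep := by
    intro e he hA hp
    obtain ⟨h1, -, -⟩ := h.keep e he (fun hc => hA (Or.inl hc))
    have h2 := h.par_keep e he (fun hc => hA (Or.inl hc)) (fun hc => hp (Or.inl hc))
    have h3 := h'.par_keep e h1 (fun hc => hA (Or.inr hc))
      (by rw [h2]; exact fun hc => hp (Or.inr hc))
    exact h3.trans h2
  U_sub := by
    intro e he v hv
    rcases h'.U_sub e he hv with hv | hv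
    · rcases h.U_sub e (h'.fr_sub he) hv with hv | hv
      · exact Or.inl hv
      · exact Or.inr (Or.inl hv)
    · exact Or.inr (Or.inr hv)
  R_sub := by
    intro f hf v hv
    rcases h'.R_sub f hf v hv with ⟨g, hg, hv⟩ | ⟨g, hg, hgA, hv⟩ | hv
    · rcases h.R_sub g hg v hv with h1 | ⟨g', hg', hgA, hv⟩ | hv
      · exact Or.inl h1
      · exact Or.inr (Or.inl ⟨g', hg', Or.inl hgA, hv⟩)
      · exact Or.inr (Or.inr (Or.inl hv))
    · rcases h.U_sub g hg hv with hv | hv
      · exact Or.inr (Or.inl ⟨g, h.fr_sub hg, Or.inr hgA, hv⟩)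
      · exact Or.inr (Or.inr (Or.inl hv))
    · exact Or.inr (Or.inr (Or.inr hv))

lemma ext_mono {W W' : World κ ω Q D J} {A A' : Set (En D)} {G G' : Set (V d)}
    (h : Ext W W' A G) (hA : A ⊆ A') (hG : G ⊆ G') : Ext W W' A' G' where
  fr_sub := h.fr_sub
  keep := fun e he hc => h.keep e he (fun hc' => hc (hA hc'))
  par_keep := fun e he hc hp => h.par_keep e he (fun hc' => hc (hA hc')) (fun hc' => hp (hA hc'))
  U_sub := fun e he => (h.U_sub e he).trans (Set.union_subset_union_right _ hG)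
  R_sub := by
    intro f hf v hv
    rcases h.R_sub f hf v hv with h1 | ⟨g, hg, hgA, hv⟩ | hv
    · exact Or.inl h1
    · exact Or.inr (Or.inl ⟨g, hg, hA hgA, hv⟩)
    · exact Or.inr (Or.inr (hG hv))

lemma fresh_mono {W : World κ ω Q D J} {G G' : Set (V d)} (h : Fresh W G) (hG : G' ⊆ G) :
    Fresh W G' :=
  fun e he => ⟨(h e he).1.mono_right hG, (h e he).2.mono_right hG⟩

lemma ext_fresh {W W' : World κ ω Q D J} {A : Set (En D)} {G G' : Set (V d)} (h : Ext W W' A G)
    (hf : Fresh W G') (hG : Disjoint G G') : Fresh W' G' := by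
  intro e he
  constructor
  · refine Set.disjoint_left.2 fun v hv hv' => ?_
    rcases h.U_sub e he hv with hv | hv
    · exact Set.disjoint_left.1 (hf e (h.fr_sub he)).1 hv hv'
    · exact Set.disjoint_left.1 hG hv hv'
  · refine Set.disjoint_left.2 fun v hv hv' => ?_
    rcases h.R_sub e he v hv with ⟨g, hg, hv⟩ | ⟨g, hg, -, hv⟩ | hv
    · exact Set.disjoint_left.1 (hf g hg).2 hv hv'
    · exact Set.disjoint_left.1 (hf g hg).1 hv hv'
    · exact Set.disjoint_left.1 hG hv hv'

lemma ext_raw {W W' : World κ ω Q D J} {A : Set (En D)} {G : Set (V d)} (h : Ext W W' A G)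
    {e : En D} (he : e ∉ A) (hr : Raw W e) : Raw W' e := by
  obtain ⟨h1, h2, h3⟩ := hr
  obtain ⟨h4, h5, h6⟩ := h.keep e h1 he
  exact ⟨h4, h5.trans h2, h6.trans h3⟩

lemma ext_at {W W' : World κ ω Q D J} {A : Set (En D)} {G Z : Set (V d)} (h : Ext W W' A G)
    {e : En D} {x : V d} (he : e ∉ A) (ha : At W e x Z) (hG : Disjoint G Z) : At W' e x Z where
  mem := (h.keep e ha.mem he).1
  hub := (h.keep e ha.mem he).2.2.trans ha.hub
  U_av := by
    intro f hf hfe
    refine Set.disjoint_left.2 fun v hv hv' => ?_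
    rcases h.U_sub f hf hv with hv | hv
    · exact Set.disjoint_left.1 (ha.U_av f (h.fr_sub hf) hfe) hv hv'
    · exact Set.disjoint_left.1 hG hv hv'
  R_av := by
    intro f hf
    refine Set.disjoint_left.2 fun v hv hv' => ?_
    rcases h.R_sub f hf v hv with ⟨g, hg, hv⟩ | ⟨g, hg, hgA, hv⟩ | hv
    · exact Set.disjoint_left.1 (ha.R_av g hg) hv hv'
    · have hge : g ≠ e := by
        rintro rfl
        exact he hgA
      exact Set.disjoint_left.1 (ha.U_av g hg hge) hv hv'
    · exact Set.disjoint_left.1 hG hv hv'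

/-- processed trees stay processed -/
theorem ext_done (g : Geo X d) (ce : En D → X) {W W' : World κ ω Q D J} {A : Set (En D)}
    {G : Set (V d)} {T : Tree X} (h : Ext W W' A G) (hA : ∀ e ∈ A, ce e ∉ T.leaves)
    (hG : Disjoint G (g.reg T.root)) (hd : Done g ce W T) : Done g ce W' T := by
  have hz : ∀ s, Disjoint G (g.zone T.root s) := fun s => hG.mono_right (g.zone_sub _ _)
  rcases hd with h1 | ⟨e, he, hu, ha⟩ | ⟨e, f, hef, hp, he, hf, hu, ha, hb⟩
  · exact Or.inl fun e he => h1 e (h.fr_sub he)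
  · exact Or.inr (Or.inl ⟨e, he, fun f hf => hu f (h.fr_sub hf),
      ext_at h (fun hc => hA e hc he) ha (hz _)⟩)
  · have heA : e ∉ A := fun hc => hA e hc he
    have hfA : f ∉ A := fun hc => hA f hc hf
    refine Or.inr (Or.inr ⟨e, f, hef, ?_, he, hf, fun f' hf' => hu f' (h.fr_sub hf'),
      ext_at h heA ha (hz _), ext_at h hfA hb (hz _)⟩)
    rw [h.par_keep e ha.mem heA (by rw [hp]; exact hfA), hp]

end Pool.Agent.H47.HJ
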