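import Pool.Agent.H47.HJ.NodeS

/-!
# HJ module Leaf: processing a base cell

PROOF. Raw ends `e` have `U e = {pe D e}`, `h e = pe D e`, so a region `U ⊆ insert (pe D e) (reg x)` avoids all other lanes
and roads (`Fresh W (reg x)`; `pe D e ∈ U e` is not in the other lanes, and not in the roads since it is in `Q`).
No end in the cell: `W' = W`. One end: `pass_ext` with `LeafOK.one`. Two ends `e, f` (at most two by `hcard`):
partners (`W.par e = f`): `LeafOK.two`, two `pass_ext`; the second region avoids the first one (`Disjoint U U'`);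
not partners: `join_ext` with `LeafOK.join`, no free end remains in the cell.
`Disjoint (reg x) Q` gives the hypotheses `hQ`.
-/

open MeasureTheory Filter Topology
open Pool.Agent.H17.IIC Pool.Agent.H41.QC Pool.Agent.H47.GM Pool.Agent.H17.QA Pool.Agent.H94.BM

namespace Pool.Agent.H47.HJ

variable {d : ℕ} {κ : Kind} {ω : El d → Bool} {Q : Set (V d)} {D : TData d}
  {J : Finset (Fin D.k)} {X : Type*}

private lemma Leaf_hQ {G U : Set (V d)} (hG : Disjoint G Q) {e : En D}
    (hU : U ⊆ insert (pe D e) G) : ∀ v ∈ U, v ∈ Q → v = pe D e := by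
  intro v hv hvQ
  rcases hU hv with h | h
  · exact h
  · exact absurd hvQ (Set.disjoint_left.1 hG h)

private lemma Leaf_hU {W : World κ ω Q D J} {G U : Set (V d)} {e : En D} (he : Raw W e)
    (hf : Fresh W G) (hU : U ⊆ insert (pe D e) G) : ∀ f ∈ W.fr, f ≠ e → Disjoint (W.U f) U := by
  intro f hfr hne
  rw [Set.disjoint_left]
  intro v hv hvU
  rcases hU hvU with h | h
  · rw [h] at hv
    refine Set.disjoint_left.1 (W.U_disj f hfr e he.1 hne) hv ?_
    rw [he.2.1]
    rfl
  · exact Set.disjoint_left.1 (hf f hfr).1 hv h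

private lemma Leaf_hR (hD : TOK Q D) {W : World κ ω Q D J} {G U : Set (V d)} {e : En D}
    (hf : Fresh W G) (hU : U ⊆ insert (pe D e) G) : ∀ f ∈ W.fr, Disjoint (W.R f) U := by
  intro f hfr
  rw [Set.disjoint_left]
  intro v hv hvU
  rcases hU hvU with h | h
  · rw [h] at hv
    exact Set.disjoint_left.1 (W.R_out f hfr) hv (pe_mem hD e)
  · exact Set.disjoint_left.1 (hf f hfr).2 hv h

theorem leaf_step (hD : TOK Q D) (hF : (TFam κ ω Q D).Nonempty) (g : Geo X d) (ce : En D → X)
    (mb K : X → ℕ) (x : X)
    (hcard : nE D J ce x ≤ 2)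
    (hQ : Disjoint (g.reg x) Q) (hok : LeafOK κ ω D J g ce x (mb x)) (W : World κ ω Q D J)
    (hraw : ∀ e : En D, e.1 ∈ J → ce e = x → Raw W e) (hfresh : Fresh W (g.reg x)) :
    ∃ W' : World κ ω Q D J, Ext W W' {e | ce e = x} (g.reg x) ∧ Done g ce W' (.leaf x) ∧
      W'.phi ≤ W.phi + 2 * Tree.cost D J ce mb K (.leaf x) := by
  classical
  set F : Finset (En D) := (J ×ˢ (Finset.univ : Finset Bool)).filter fun e => ce e = x with hFd
  have hcost : Tree.cost D J ce mb K (.leaf x) = mb x * F.card := by
    rw [hFd]
    simp only [Tree.cost, nE]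
  have hcardF : F.card ≤ 2 := by
    refine le_trans (le_of_eq ?_) hcard
    rw [hFd]
    simp only [nE]
  have hmemF : ∀ e : En D, e ∈ F ↔ e.1 ∈ J ∧ ce e = x := by
    intro e
    rw [hFd, Finset.mem_filter, Finset.mem_product]
    simp
  have hJfr : ∀ e ∈ W.fr, e.1 ∈ J := fun e he => W.S_sub e he (W.S_mem e he)
  have hfrF : ∀ e ∈ W.fr, ce e = x → e ∈ F := fun e he hx => (hmemF e).2 ⟨hJfr e he, hx⟩
  have hzone : ∀ s, ∀ f ∈ W.fr, Disjoint (W.U f) (g.zone x s) ∧ Disjoint (W.R f) (g.zone x s) :=
    fun s f hf => ⟨(hfresh f hf).1.mono_right (g.zone_sub x s), (hfresh f hf).2.mono_right (g.zone_sub x s)⟩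
  have hcases : F.card = 0 ∨ F.card = 1 ∨ F.card = 2 := by omega
  rcases hcases with h0 | h1 | h2
  · -- no end
    refine ⟨W, ext_refl _ _ _, Or.inl ?_, by omega⟩
    intro e he hx
    have h3 := hfrF e he hx
    rw [Finset.card_eq_zero] at h0
    rw [h0] at h3
    exact absurd h3 (Finset.notMem_empty _)
  · -- one end
    obtain ⟨e, heF⟩ := Finset.card_eq_one.1 h1
    have he : e ∈ F := by rw [heF]; exact Finset.mem_singleton_self e
    obtain ⟨heJ, hex⟩ := (hmemF e).1 he
    have hr := hraw e heJ hex
    obtain ⟨U, hRw, hU⟩ := hok.one e heJ hex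
    have hRw' : Rw κ ω U (W.h e) (g.hub x false) (mb x) := by rw [hr.2.2]; exact hRw
    obtain ⟨W', hE, hfr, hpar, hh, hR', hU', hUe, hphi⟩ := pass_ext W hr.1 hRw' (Leaf_hQ hQ hU)
      (Leaf_hU hr hfresh hU) (Leaf_hR hD hfresh hU)
    have hpe : pe D e ∈ W.U e := by rw [hr.2.1]; rfl
    refine ⟨W', ⟨?_, ?_, ?_, ?_, ?_⟩, Or.inr (Or.inl ⟨e, hex, ?_, ?_, ?_, ?_, ?_⟩), ?_⟩
    · rw [hfr]
    · intro f hf hfA
      have hfe : f ≠ e := fun h => hfA (h ▸ hex)
      exact hE.keep f hf hfe
    · intro f hf h1 h2
      rw [hpar]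
    · intro f hf
      rw [hfr] at hf
      by_cases hfe : f = e
      · subst hfe
        rw [hUe]
        refine Set.union_subset Set.subset_union_left ?_
        intro v hv
        rcases hU hv with h | h
        · exact Or.inl (h ▸ hpe)
        · exact Or.inr h
      · rw [hU' f hf hfe]
        exact Set.subset_union_left
    · intro f hf v hv
      rw [hfr] at hf
      rw [hR' f hf] at hv
      exact Or.inl ⟨f, hf, hv⟩
    · intro f hf hfx
      rw [hfr] at hf
      have := hfrF f hf hfx
      rw [heF] at this
      exact Finset.mem_singleton.1 this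
    · rw [hfr]; exact hr.1
    · exact hh
    · intro f hf hfe
      rw [hfr] at hf
      rw [hU' f hf hfe]
      exact (hzone false f hf).1
    · intro f hf
      rw [hfr] at hf
      rw [hR' f hf]
      exact (hzone false f hf).2
    · rw [hcost, h1]
      omega
  · -- two ends
    obtain ⟨e, f, hef, hefF⟩ := Finset.card_eq_two.1 h2
    have he : e ∈ F := by rw [hefF]; simp
    have hf : f ∈ F := by rw [hefF]; simp
    obtain ⟨heJ, hex⟩ := (hmemF e).1 he
    obtain ⟨hfJ, hfx⟩ := (hmemF f).1 hf
    have hre := hraw e heJ hex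
    have hrf := hraw f hfJ hfx
    by_cases hp : W.par e = f
    · -- partners
      obtain ⟨e', f', hperm, U, U', hRw, hRw', hU, hU', hdis, hdz, hdz'⟩ :=
        hok.two e f heJ hfJ hex hfx hef
      have hef' : e' ≠ f' := by
        rcases hperm with ⟨h1, h2⟩ | ⟨h1, h2⟩
        · rw [h1, h2]; exact hef
        · rw [h1, h2]; exact hef.symm
      have hre' : Raw W e' := by
        rcases hperm with ⟨h1, -⟩ | ⟨h1, -⟩
        · rw [h1]; exact hre
        · rw [h1]; exact hrf
      have hrf' : Raw W f' := by
        rcases hperm with ⟨-, h1⟩ | ⟨-, h1⟩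
        · rw [h1]; exact hrf
        · rw [h1]; exact hre
      have hex' : ce e' = x := by
        rcases hperm with ⟨h1, -⟩ | ⟨h1, -⟩
        · rw [h1]; exact hex
        · rw [h1]; exact hfx
      have hfx' : ce f' = x := by
        rcases hperm with ⟨-, h1⟩ | ⟨-, h1⟩
        · rw [h1]; exact hfx
        · rw [h1]; exact hex
      have hp' : W.par e' = f' := by
        rcases hperm with ⟨h1, h2⟩ | ⟨h1, h2⟩
        · rw [h1, h2]; exact hp
        · rw [h1, h2, ← hp]; exact W.par_par e hre.1
      have hall : ∀ a ∈ W.fr, ce a = x → a = e' ∨ a = f' := by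
        intro a ha hax
        have h3 := hfrF a ha hax
        rw [hefF, Finset.mem_insert, Finset.mem_singleton] at h3
        rcases hperm with ⟨h1, h2⟩ | ⟨h1, h2⟩
        · rw [h1, h2]; exact h3
        · rw [h1, h2]; exact h3.symm
      have hRw1 : Rw κ ω U (W.h e') (g.hub x false) (mb x) := by rw [hre'.2.2]; exact hRw
      obtain ⟨W1, hE1, hfr1, hpar1, hh1, hR1, hU1, hUe1, hphi1⟩ := pass_ext W hre'.1 hRw1
        (Leaf_hQ hQ hU) (Leaf_hU hre' hfresh hU) (Leaf_hR hD hfresh hU)
      have hk1 := hE1.keep f' hrf'.1 (fun h => hef' (h : f' = e').symm)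
      have hpee : pe D e' ∉ U' := by
        intro h
        rcases hU' h with h | h
        · exact hef' (pe_inj hD hF h)
        · exact Set.disjoint_left.1 hQ h (pe_mem hD e')
      have hRw2 : Rw κ ω U' (W1.h f') (g.hub x true) (mb x) := by
        rw [hk1.2.2, hrf'.2.2]; exact hRw'
      obtain ⟨W2, hE2, hfr2, hpar2, hh2, hR2, hU2, hUe2, hphi2⟩ := pass_ext W1 hk1.1 hRw2
        (Leaf_hQ hQ hU')
        (by
          intro a ha haf
          rw [hfr1] at ha
          by_cases hae : a = e'
          · subst hae
            rw [hUe1, Set.disjoint_union_left]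
            refine ⟨?_, hdis⟩
            rw [hre'.2.1, Set.disjoint_singleton_left]
            exact hpee
          · rw [hU1 a ha hae]
            exact Leaf_hU hrf' hfresh hU' a ha haf)
        (by
          intro a ha
          rw [hfr1] at ha
          rw [hR1 a ha]
          exact Leaf_hR hD hfresh hU' a ha)
      have hfr : W2.fr = W.fr := hfr2.trans hfr1
      have hRR : ∀ a ∈ W.fr, W2.R a = W.R a := fun a ha => by
        rw [hR2 a (hfr1 ▸ ha), hR1 a ha]
      have hUU : ∀ a ∈ W.fr, a ≠ e' → a ≠ f' → W2.U a = W.U a := fun a ha h1 h2 => by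
        rw [hU2 a (hfr1 ▸ ha) h2, hU1 a ha h1]
      have hUUe : W2.U e' = W.U e' ∪ U := by
        rw [hU2 e' (hfr1 ▸ hre'.1) hef', hUe1]
      have hUUf : W2.U f' = W.U f' ∪ U' := by
        rw [hUe2, hU1 f' hrf'.1 hef'.symm]
      have hpe : pe D e' ∈ W.U e' := by rw [hre'.2.1]; rfl
      have hpf : pe D f' ∈ W.U f' := by rw [hrf'.2.1]; rfl
      have hk2 := hE2.keep e' (hfr1 ▸ hre'.1) (fun h => hef' (h : e' = f'))
      refine ⟨W2, ⟨?_, ?_, ?_, ?_, ?_⟩, Or.inr (Or.inr ⟨e', f', hef', ?_, hex', hfx', ?_,
        ⟨?_, ?_, ?_, ?_⟩, ⟨?_, ?_, ?_, ?_⟩⟩), ?_⟩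
      · rw [hfr]
      · intro a ha haA
        have hae : a ≠ e' := fun h => haA (h ▸ hex')
        have haf : a ≠ f' := fun h => haA (h ▸ hfx')
        obtain ⟨q1, q2, q3⟩ := hE1.keep a ha hae
        obtain ⟨r1, r2, r3⟩ := hE2.keep a q1 haf
        exact ⟨r1, r2.trans q2, r3.trans q3⟩
      · intro a ha h1 h2
        rw [hpar2, hpar1]
      · intro a ha
        rw [hfr] at ha
        by_cases hae : a = e'
        · subst hae
          rw [hUUe]
          refine Set.union_subset Set.subset_union_left ?_
          intro v hv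
          rcases hU hv with h | h
          · exact Or.inl (h ▸ hpe)
          · exact Or.inr h
        · by_cases haf : a = f'
          · subst haf
            rw [hUUf]
            refine Set.union_subset Set.subset_union_left ?_
            intro v hv
            rcases hU' hv with h | h
            · exact Or.inl (h ▸ hpf)
            · exact Or.inr h
          · rw [hUU a ha hae haf]
            exact Set.subset_union_left
      · intro a ha v hv
        rw [hfr] at ha
        rw [hRR a ha] at hv
        exact Or.inl ⟨a, ha, hv⟩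
      · rw [hpar2, hpar1]; exact hp'
      · intro a ha hax
        rw [hfr] at ha
        exact hall a ha hax
      · rw [hfr]; exact hre'.1
      · rw [hk2.2.2]; exact hh1
      · intro a ha hae
        rw [hfr] at ha
        by_cases haf : a = f'
        · subst haf
          rw [hUUf, Set.disjoint_union_left]
          exact ⟨(hzone false _ ha).1, hdz'⟩
        · rw [hUU a ha hae haf]
          exact (hzone false a ha).1
      · intro a ha
        rw [hfr] at ha
        rw [hRR a ha]
        exact (hzone false a ha).2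
      · rw [hfr]; exact hrf'.1
      · exact hh2
      · intro a ha haf
        rw [hfr] at ha
        by_cases hae : a = e'
        · subst hae
          rw [hUUe, Set.disjoint_union_left]
          exact ⟨(hzone true _ ha).1, hdz⟩
        · rw [hUU a ha hae haf]
          exact (hzone true a ha).1
      · intro a ha
        rw [hfr] at ha
        rw [hRR a ha]
        exact (hzone true a ha).2
      · rw [hcost, h2]
        omega
    · -- not partners
      obtain ⟨U, hRw, hU⟩ := hok.join e f heJ hfJ hex hfx hef
      have hRw1 : Rw κ ω U (W.h e) (W.h f) (mb x) := by rw [hre.2.2, hrf.2.2]; exact hRw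
      obtain ⟨W', hE, hfr, -, -, hUh, hR', hphi⟩ := join_ext hD W hre.1 hrf.1 hef.symm (Ne.symm hp) hRw1
        (by
          intro v hv hvQ
          rcases hU hv with h | h | h
          · exact Or.inl h
          · exact Or.inr h
          · exact absurd hvQ (Set.disjoint_left.1 hQ h))
        (by
          intro a ha hae haf
          rw [Set.disjoint_left]
          intro v hv hvU
          rcases hU hvU with h | h | h
          · rw [h] at hv
            refine Set.disjoint_left.1 (W.U_disj a ha e hre.1 hae) hv ?_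
            rw [hre.2.1]; rfl
          · rw [h] at hv
            refine Set.disjoint_left.1 (W.U_disj a ha f hrf.1 haf) hv ?_
            rw [hrf.2.1]; rfl
          · exact Set.disjoint_left.1 (hfresh a ha).1 hv h)
        (by
          intro a ha
          rw [Set.disjoint_left]
          intro v hv hvU
          rcases hU hvU with h | h | h
          · rw [h] at hv
            exact Set.disjoint_left.1 (W.R_out a ha) hv (pe_mem hD e)
          · rw [h] at hv
            exact Set.disjoint_left.1 (W.R_out a ha) hv (pe_mem hD f)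
          · exact Set.disjoint_left.1 (hfresh a ha).2 hv h)
      have hpe : pe D e ∈ W.U e := by rw [hre.2.1]; rfl
      have hpf : pe D f ∈ W.U f := by rw [hrf.2.1]; rfl
      have hnot : ∀ a : En D, ce a ≠ x → a ∉ ({e, f} : Set (En D)) := by
        intro a ha hmem
        rcases hmem with h | h
        · exact ha (h ▸ hex)
        · exact ha ((h : a = f) ▸ hfx)
      refine ⟨W', ⟨?_, ?_, ?_, ?_, ?_⟩, Or.inl ?_, ?_⟩
      · intro a ha
        exact ((hfr a).1 ha).1
      · intro a ha haA
        exact hE.keep a ha (hnot a haA)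
      · intro a ha h1 h2
        exact hE.par_keep a ha (hnot a h1) (hnot _ h2)
      · intro a ha
        rw [(hUh a ha).1]
        exact Set.subset_union_left
      · intro a ha v hv
        rcases hR' a ha hv with ((h | h) | h) | h
        · simp only [Set.mem_iUnion] at h
          obtain ⟨b, hb, hvb⟩ := h
          exact Or.inl ⟨b, hb, hvb⟩
        · exact Or.inr (Or.inl ⟨e, hre.1, hex, h⟩)
        · exact Or.inr (Or.inl ⟨f, hrf.1, hfx, h⟩)
        · rcases hU h with h | h | h
          · exact Or.inr (Or.inl ⟨e, hre.1, hex, h ▸ hpe⟩)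
          · exact Or.inr (Or.inl ⟨f, hrf.1, hfx, h ▸ hpf⟩)
          · exact Or.inr (Or.inr h)
      · intro a ha hax
        obtain ⟨h1, h2, h3⟩ := (hfr a).1 ha
        have h4 := hfrF a h1 hax
        rw [hefF, Finset.mem_insert, Finset.mem_singleton] at h4
        rcases h4 with h4 | h4
        · exact h2 h4
        · exact h3 h4
      · rw [hcost, h2]
        omega

end Pool.Agent.H47.HJ
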