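import Pool.Agent.H47.HJ.Defs
import Pool.Agent.H47.HJ.RwT
import Pool.Agent.H94.BM.Glue

/-!
# HJ module PFf: the final count

The same with roads at both ends: `w ↦ ρ_A ++ (P w).tail ++ ρ_B.tail` gives an injective map from
`projS S (TFam ..)` to the finite set `Fam κ ω W A B N` (`H94/BM/Glue` `fam_finite`).
-/

open MeasureTheory Filter Topology
open Pool.Agent.H17.IIC Pool.Agent.H41.QC Pool.Agent.H47.GM Pool.Agent.H17.QA Pool.Agent.H94.BM

namespace Pool.Agent.H47.HJ

variable {d : ℕ} {κ : Kind} {ω : El d → Bool} {Q : Set (V d)} {D : TData d}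

lemma PFf_last {α : Type*} {l l' : List α} {x y : α} (hl : l.getLast? = some x)
    (h' : l'.head? = some x) (hy : l'.getLast? = some y) : (l ++ l'.tail).getLast? = some y := by
  cases l' with
  | nil => simp at h'
  | cons c t =>
    simp only [List.head?_cons, Option.some.injEq] at h'
    subst h'
    rw [List.tail_cons, List.getLast?_append]
    cases t with
    | nil =>
      simp only [List.getLast?_singleton, Option.some.injEq] at hy
      subst hy
      simp [hl]
    | cons e t' =>
      rw [List.getLast?_cons_cons] at hy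
      rw [hy]
      rfl

lemma PFf_head {α : Type*} {l l' : List α} {x : α} (hl : l.head? = some x) :
    (l ++ l').head? = some x := by
  rw [List.head?_append, hl]
  rfl

lemma PFf_len {α : Type*} {l l' : List α} {x : α} (h' : l'.head? = some x) :
    (l ++ l'.tail).length + 1 = l.length + l'.length := by
  cases l' with
  | nil => simp at h'
  | cons c t =>
    rw [List.tail_cons, List.length_append, List.length_cons]
    omega

lemma PFf_tail_inj {α : Type*} {l l' : List α} {x : α} (h : l.head? = some x)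
    (h' : l'.head? = some x) (ht : l.tail = l'.tail) : l = l' := by
  cases l with
  | nil => simp at h
  | cons c t =>
    cases l' with
    | nil => simp at h'
    | cons c' t' =>
      simp only [List.head?_cons, Option.some.injEq] at h h'
      simp only [List.tail_cons] at ht
      rw [h, h', ht]

/-- final count: roads from `A` to the first vertex `a` and from the last vertex `b` to `B` -/
theorem pf_final {S : Finset (Fin D.k)} {a b A B : V d} {R UA UB W : Set (V d)} {L MA MB : ℕ}
    (h : PF κ ω Q D S a b R L) (hA : Rw κ ω UA A a MA) (hB : Rw κ ω UB b B MB)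
    (hAB : Disjoint UA UB) (hRA : Disjoint R UA) (hRB : Disjoint R UB)
    (hAQ : ∀ v ∈ UA, v ∈ Q → v = a) (hBQ : ∀ v ∈ UB, v ∈ Q → v = b) (ha : a ∈ Q) (hb : b ∈ Q)
    (hW : W.Finite) (hQW : Q ⊆ W) (hRW : R ⊆ W) (hAW : UA ⊆ W) (hBW : UB ⊆ W) :
    ∃ N, N ≤ ∑ j ∈ S, D.n j + L + MA + MB ∧
      (projS S (TFam κ ω Q D)).ncard ≤ Zc κ ω W A B N := by
  classical
  obtain ⟨P, hP, hinj⟩ := h
  obtain ⟨ρA, oA, hA1, hA2, hA3, hA4⟩ := hA
  obtain ⟨ρB, oB, hB1, hB2, hB3, hB4⟩ := hB
  have hAne : ρA.length ≠ 0 := by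
    intro h0
    rw [List.length_eq_zero_iff] at h0
    rw [h0] at hA1
    simp at hA1
  have hBne : ρB.length ≠ 0 := by
    intro h0
    rw [List.length_eq_zero_iff] at h0
    rw [h0] at hB1
    simp at hB1
  -- the map
  set F : (Fin D.k → List (V d)) → List (V d) := fun w => (ρA ++ (P w).tail) ++ ρB.tail with hF
  have hmemP : ∀ w ∈ TFam κ ω Q D, ∀ v ∈ P w, v ∈ R ∨ v ∈ Q := by
    intro w hw v hv
    rcases (hP w hw).2.2.2.2 v hv with h1 | ⟨j, -, h1⟩
    · exact Or.inl h1
    · exact Or.inr ((hw.1 j).2.2.2.2 v h1)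
  have hFmem : ∀ w ∈ TFam κ ω Q D, F w ∈ Fam κ ω W A B
      ((ρA.length - 1) + (∑ j ∈ S, D.n j + L) + (ρB.length - 1)) := by
    intro w hw
    obtain ⟨oP, hP1, hP2, hP3, -⟩ := hP w hw
    have g1 : OP κ ω (ρA ++ (P w).tail) := by
      refine op_glue oA oP hA2 hP1 ?_
      intro v hv hv'
      rcases hmemP w hw v hv' with h1 | h1
      · exact absurd (hA3 v hv) (Set.disjoint_left.1 hRA h1)
      · exact hAQ v (hA3 v hv) h1
    have g2 : (ρA ++ (P w).tail).getLast? = some b := PFf_last hA2 hP1 hP2
    have g3 : OP κ ω (F w) := by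
      refine op_glue g1 oB g2 hB1 ?_
      intro v hv hv'
      rw [List.mem_append] at hv
      rcases hv with hv | hv
      · exact absurd (hB3 v hv') (Set.disjoint_left.1 hAB (hA3 v hv))
      · rcases hmemP w hw v (List.mem_of_mem_tail hv) with h1 | h1
        · exact absurd (hB3 v hv') (Set.disjoint_left.1 hRB h1)
        · exact hBQ v (hB3 v hv') h1
    refine ⟨g3, ?_, ?_, ?_, ?_⟩
    · have e1 : (F w).length + 1 = (ρA ++ (P w).tail).length + ρB.length := PFf_len hB1
      have e2 : (ρA ++ (P w).tail).length + 1 = ρA.length + (P w).length := PFf_len hP1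
      omega
    · exact PFf_head (PFf_head hA1)
    · exact PFf_last g2 hB1 hB2
    · intro v hv
      rw [hF] at hv
      simp only [List.mem_append] at hv
      rcases hv with (hv | hv) | hv
      · exact hAW (hA3 v hv)
      · rcases hmemP w hw v (List.mem_of_mem_tail hv) with h1 | h1
        · exact hRW h1
        · exact hQW h1
      · exact hBW (hB3 v (List.mem_of_mem_tail hv))
  have hFinj : ∀ w ∈ TFam κ ω Q D, ∀ w' ∈ TFam κ ω Q D, F w = F w' → ∀ j ∈ S, w j = w' j := by
    intro w hw w' hw' hww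
    have e1 : (P w).tail = (P w').tail := by
      have := List.append_cancel_right hww
      exact List.append_cancel_left this
    exact hinj w hw w' hw' (PFf_tail_inj (hP w hw).2.1 (hP w' hw').2.1 e1)
  refine ⟨(ρA.length - 1) + (∑ j ∈ S, D.n j + L) + (ρB.length - 1), by omega, ?_⟩
  unfold Zc
  refine Set.ncard_le_ncard_of_injOn (fun u => F (if hu : ∃ w ∈ TFam κ ω Q D,
    (fun (w : Fin D.k → List (V d)) (j : {j // j ∈ S}) => w j) w = u then hu.choose else
    fun _ => [])) ?_ ?_ (fam_finite κ ω hW A B _)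
  · intro u hu
    have hu' : ∃ w ∈ TFam κ ω Q D,
      (fun (w : Fin D.k → List (V d)) (j : {j // j ∈ S}) => w j) w = u := hu
    simp only [dif_pos hu']
    exact hFmem _ hu'.choose_spec.1
  · intro u hu v hv huv
    have hu' : ∃ w ∈ TFam κ ω Q D,
      (fun (w : Fin D.k → List (V d)) (j : {j // j ∈ S}) => w j) w = u := hu
    have hv' : ∃ w ∈ TFam κ ω Q D,
      (fun (w : Fin D.k → List (V d)) (j : {j // j ∈ S}) => w j) w = v := hv
    simp only [dif_pos hu', dif_pos hv'] at huv
    have h1 := hFinj _ hu'.choose_spec.1 _ hv'.choose_spec.1 huv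
    rw [← hu'.choose_spec.2, ← hv'.choose_spec.2]
    funext j
    exact h1 j.1 j.2

end Pool.Agent.H47.HJ
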