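import Pool.Agent.H47.HJ.Leaf

/-!
# HJ module StepT: processing a tree

Induction on the tree: `leaf_step`; for a node: left subtree, right subtree (`ext_raw`, `ext_fresh`, `ext_done` with the
separation), then `node_step`; compose with `ext_trans`, `ext_mono`.
-/

open MeasureTheory Filter Topology
open Pool.Agent.H17.IIC Pool.Agent.H41.QC Pool.Agent.H47.GM Pool.Agent.H17.QA Pool.Agent.H94.BM

namespace Pool.Agent.H47.HJ

variable {d : ℕ} {κ : Kind} {ω : El d → Bool} {Q : Set (V d)} {D : TData d}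
  {J : Finset (Fin D.k)} {X : Type*}

lemma leaves_sub (T : Tree X) : T.leaves ⊆ T.verts := by
  induction T with
  | leaf x => exact subset_rfl
  | node x l r hl hr =>
    intro v hv
    rcases hv with hv | hv
    · exact Or.inl (Or.inr (hl hv))
    · exact Or.inr (hr hv)

lemma root_mem (T : Tree X) : T.root ∈ T.verts := by
  cases T with
  | leaf x => exact rfl
  | node x l r => exact Or.inl (Or.inl rfl)

private lemma StepT_reg_leaf (g : Geo X d) (x : X) : g.Reg (.leaf x) = g.reg x := by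
  ext v
  constructor
  · rintro ⟨y, hy, hv⟩
    have : y = x := hy
    rw [← this]; exact hv
  · intro hv
    exact ⟨x, rfl, hv⟩

theorem tree_step (hD : TOK Q D) (hF : (TFam κ ω Q D).Nonempty) (g : Geo X d) (ce : En D → X)
    (mb K : X → ℕ) (T : Tree X) (hcard : ∀ x, nE D J ce x ≤ 2)
    (hQ : Disjoint (g.Reg T) Q) (hsep : Tree.Sep g T)
    (hok : Tree.OK κ ω D J g ce mb K T) (W : World κ ω Q D J)
    (hraw : ∀ e : En D, e.1 ∈ J → ce e ∈ T.leaves → Raw W e) (hfresh : Fresh W (g.Reg T)) :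
    ∃ W' : World κ ω Q D J, Ext W W' {e | ce e ∈ T.leaves} (g.Reg T) ∧ Done g ce W' T ∧
      W'.phi ≤ W.phi + 2 * Tree.cost D J ce mb K T := by
  induction T generalizing W with
  | leaf x =>
    rw [StepT_reg_leaf] at hQ hfresh
    obtain ⟨W', h1, h2, h3⟩ := leaf_step hD hF g ce mb K x (hcard x) hQ hok W
      (fun e he hx => hraw e he hx) hfresh
    refine ⟨W', ext_mono h1 (fun e he => he) ?_, h2, h3⟩
    rw [StepT_reg_leaf]
  | node x l r ihl ihr =>
    obtain ⟨sl, sr, dxl, dxr, dlr, dv, hxl, hxr⟩ := hsep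
    obtain ⟨okl, okr, okx⟩ := hok
    have hsubl : g.Reg l ⊆ g.Reg (.node x l r) := fun v hv => by
      obtain ⟨y, hy, hv⟩ := hv
      exact ⟨y, Or.inl (Or.inr hy), hv⟩
    have hsubr : g.Reg r ⊆ g.Reg (.node x l r) := fun v hv => by
      obtain ⟨y, hy, hv⟩ := hv
      exact ⟨y, Or.inr hy, hv⟩
    have hsubx : g.reg x ⊆ g.Reg (.node x l r) := fun v hv =>
      ⟨x, Or.inl (Or.inl rfl), hv⟩
    have hlr : ∀ y ∈ l.leaves, y ∉ r.leaves := fun y hy hy' =>
      Set.disjoint_left.1 dv (leaves_sub l hy) (leaves_sub r hy')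
    obtain ⟨W1, e1, d1, p1⟩ := ihl (hQ.mono_left hsubl) sl okl W
      (fun e he hx => hraw e he (Or.inl hx)) (fresh_mono hfresh hsubl)
    obtain ⟨W2, e2, d2, p2⟩ := ihr (hQ.mono_left hsubr) sr okr W1
      (fun e he hx => ext_raw e1 (fun h => hlr _ h hx) (hraw e he (Or.inr hx)))
      (ext_fresh e1 (fresh_mono hfresh hsubr) dlr)
    have d1' : Done g ce W2 l := by
      apply ext_done g ce e2 (fun e he h => hlr _ h he) _ d1
      apply dlr.symm.mono_right
      intro v hv
      exact ⟨l.root, root_mem l, hv⟩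
    have hf2 : Fresh W2 (g.reg x) :=
      ext_fresh e2 (ext_fresh e1 (fresh_mono hfresh hsubx) dxl.symm) dxr.symm
    obtain ⟨W3, e3, d3, p3⟩ := node_step hD g ce mb K x l r hQ
      ⟨sl, sr, dxl, dxr, dlr, dv, hxl, hxr⟩ okx W2 hf2 d1' d2
    refine ⟨W3, ext_mono (ext_trans (ext_trans e1 e2) e3) ?_ ?_, d3, ?_⟩
    · rintro e ((he | he) | he)
      · exact Or.inl he
      · exact Or.inr he
      · exact he
    · rintro v ((hv | hv) | hv)
      · exact hsubl hv
      · exact hsubr hv
      · exact hv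
    · have hc : Tree.cost D J ce mb K l + Tree.cost D J ce mb K r ≤
          Tree.cost D J ce mb K (.node x l r) := by
        simp only [Tree.cost]
        omega
      omega

end Pool.Agent.H47.HJ
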