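import Pool.Agent.H47.HJ.OpI
import Pool.Agent.H47.HJ.StepT

/-!
# HJ module StepF: processing a forest

Induction on a finite set of indices, starting from `init_world`; at every stage `Ext W₀ W {e | ∃ i ∈ s, ce e ∈ leaves}
(⋃ i ∈ s, Reg)`. At the end the roads are inside the regions: an element of `R` is in a region, or in some `{pe D g}`, which
is excluded by `R_out`.
-/

open MeasureTheory Filter Topology
open Pool.Agent.H17.IIC Pool.Agent.H41.QC Pool.Agent.H47.GM Pool.Agent.H17.QA Pool.Agent.H94.BM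

namespace Pool.Agent.H47.HJ

variable {d : ℕ} {κ : Kind} {ω : El d → Bool} {Q : Set (V d)} {D : TData d}
  {J : Finset (Fin D.k)} {X : Type*}

/-- ends are in `Q` -/
lemma StepF_pe_mem (hD : TOK Q D) (e : En D) : pe D e ∈ Q := by
  obtain ⟨j, s⟩ := e
  have h := hD.2 j
  cases s
  · exact h.1.1
  · exact h.2.1.1

theorem forest_step {ι : Type*} [Fintype ι] (hD : TOK Q D) (hF : (TFam κ ω Q D).Nonempty)
    (g : Geo X d) (ce : En D → X) (mb K : X → ℕ) (trees : ι → Tree X)
    (hcard : ∀ x, nE D J ce x ≤ 2) (hQ : ∀ i, Disjoint (g.Reg (trees i)) Q)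
    (hsep : ∀ i, Tree.Sep g (trees i))
    (hsep' : ∀ i j, i ≠ j → Disjoint (g.Reg (trees i)) (g.Reg (trees j)) ∧
      Disjoint (trees i).verts (trees j).verts)
    (hok : ∀ i, Tree.OK κ ω D J g ce mb K (trees i)) :
    ∃ W : World κ ω Q D J, (∀ i, Done g ce W (trees i)) ∧
      (∀ e ∈ W.fr, ∀ v ∈ W.U e, v = pe D e ∨ ∃ i, v ∈ g.Reg (trees i)) ∧
      (∀ e ∈ W.fr, ∀ v ∈ W.R e, ∃ i, v ∈ g.Reg (trees i)) ∧
      W.phi ≤ 2 * ∑ i, Tree.cost D J ce mb K (trees i) := by
  classical
  obtain ⟨W₀, hraw₀, hfr₀, hR₀, -, hphi₀⟩ := init_world (κ := κ) (ω := ω) (J := J) hD hF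
  have hU₀ : ∀ e ∈ W₀.fr, W₀.U e = {pe D e} := fun e he => (hraw₀ e (hfr₀ e he)).2.1
  have key : ∀ s : Finset ι, ∃ W : World κ ω Q D J,
      Ext W₀ W {e | ∃ i ∈ s, ce e ∈ (trees i).leaves} {v | ∃ i ∈ s, v ∈ g.Reg (trees i)} ∧
      (∀ i ∈ s, Done g ce W (trees i)) ∧
      W.phi ≤ 2 * ∑ i ∈ s, Tree.cost D J ce mb K (trees i) := by
    intro s
    induction s using Finset.induction_on with
    | empty =>
      exact ⟨W₀, ext_refl _ _ _, by simp, by simp [hphi₀]⟩
    | insert i s his ih =>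
      obtain ⟨W, hext, hdone, hphi⟩ := ih
      have hne : ∀ j ∈ s, i ≠ j := fun j hj h => his (h ▸ hj)
      have hraw : ∀ e : En D, e.1 ∈ J → ce e ∈ (trees i).leaves → Raw W e := by
        intro e he hce
        refine ext_raw hext ?_ (hraw₀ e he)
        rintro ⟨j, hj, hj'⟩
        exact Set.disjoint_left.1 (hsep' i j (hne j hj)).2 (leaves_sub _ hce) (leaves_sub _ hj')
      have hfresh₀ : Fresh W₀ (g.Reg (trees i)) := by
        intro e he
        rw [hU₀ e he, hR₀ e he]
        refine ⟨?_, Set.empty_disjoint _⟩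
        rw [Set.disjoint_singleton_left]
        intro hmem
        exact Set.disjoint_left.1 (hQ i) hmem (StepF_pe_mem hD e)
      have hfresh : Fresh W (g.Reg (trees i)) := by
        refine ext_fresh hext hfresh₀ ?_
        rw [Set.disjoint_left]
        rintro v ⟨j, hj, hv⟩ hv'
        exact Set.disjoint_left.1 (hsep' i j (hne j hj)).1 hv' hv
      obtain ⟨W', hext', hdone', hphi'⟩ := tree_step hD hF g ce mb K (trees i) hcard (hQ i)
        (hsep i) (hok i) W hraw hfresh
      refine ⟨W', ?_, ?_, ?_⟩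
      · refine ext_mono (ext_trans hext hext') ?_ ?_
        · rintro e (⟨j, hj, hj'⟩ | he)
          · exact ⟨j, Finset.mem_insert_of_mem hj, hj'⟩
          · exact ⟨i, Finset.mem_insert_self _ _, he⟩
        · rintro v (⟨j, hj, hj'⟩ | hv)
          · exact ⟨j, Finset.mem_insert_of_mem hj, hj'⟩
          · exact ⟨i, Finset.mem_insert_self _ _, hv⟩
      · intro j hj
        rw [Finset.mem_insert] at hj
        rcases hj with rfl | hj
        · exact hdone'
        · refine ext_done g ce hext' ?_ ?_ (hdone j hj)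
          · intro e he hce
            exact Set.disjoint_left.1 (hsep' i j (hne j hj)).2 (leaves_sub _ he)
              (leaves_sub _ hce)
          · rw [Set.disjoint_left]
            intro v hv hv'
            exact Set.disjoint_left.1 (hsep' i j (hne j hj)).1 hv ⟨_, root_mem _, hv'⟩
      · rw [Finset.sum_insert his]
        omega
  obtain ⟨W, hext, hdone, hphi⟩ := key Finset.univ
  refine ⟨W, fun i => hdone i (Finset.mem_univ _), ?_, ?_, hphi⟩
  · intro e he v hv
    rcases hext.U_sub e he hv with h | ⟨i, -, h⟩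
    · rw [hU₀ e (hext.fr_sub he)] at h
      exact Or.inl h
    · exact Or.inr ⟨i, h⟩
  · intro e he v hv
    rcases hext.R_sub e he v hv with ⟨f, hf, h⟩ | ⟨f, hf, -, h⟩ | ⟨i, -, h⟩
    · rw [hR₀ f hf] at h
      exact absurd h (Set.notMem_empty _)
    · rw [hU₀ f hf, Set.mem_singleton_iff] at h
      exact absurd (h ▸ StepF_pe_mem hD f) (Set.disjoint_left.1 (W.R_out e he) hv)
    · exact ⟨i, h⟩

end Pool.Agent.H47.HJ
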