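import Pool.Agent.H47.HJ.Best
import Pool.Agent.H47.HJ.PFf
import Pool.Agent.H47.HJ.StepF

/-!
# HJ module Machine: the final theorem of the joining machine

`forest_step`, `best`, then `pf_final` for `S = S e` with `rw_union hA (rw_symm (lane e))` and
`rw_union (lane (par e)) hB`; `L e + M e + M (par e) ≤ phi / 2`.
-/

open MeasureTheory Filter Topology
open Pool.Agent.H17.IIC Pool.Agent.H41.QC Pool.Agent.H47.GM Pool.Agent.H17.QA Pool.Agent.H94.BM

namespace Pool.Agent.H47.HJ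

variable {d : ℕ} {κ : Kind} {ω : El d → Bool} {Q : Set (V d)} {D : TData d}
  {J : Finset (Fin D.k)} {X : Type*}

/-- THE MACHINE. `t = card ι` trees. For the best component the two ports are `(i, false)`, `(i, true)` or
`(i, false)`, `(i', false)` with `i ≠ i'`. -/
theorem machine {ι : Type*} [Fintype ι] (hD : TOK Q D) (hF : (TFam κ ω Q D).Nonempty)
    (g : Geo X d) (ce : En D → X) (mb K : X → ℕ) (trees : ι → Tree X)
    (hcard : ∀ x, nE D J ce x ≤ 2) (hQ : ∀ i, Disjoint (g.Reg (trees i)) Q)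
    (hsep : ∀ i, Tree.Sep g (trees i))
    (hsep' : ∀ i j, i ≠ j → Disjoint (g.Reg (trees i)) (g.Reg (trees j)) ∧
      Disjoint (trees i).verts (trees j).verts)
    (hok : ∀ i, Tree.OK κ ω D J g ce mb K (trees i))
    (hcov : ∀ e : En D, e.1 ∈ J → ∃ i, ce e ∈ (trees i).leaves) (hJ : J.Nonempty)
    (v : Fin D.k → ℝ) (hv : ∀ j ∈ J, 0 ≤ v j) :
    ∃ S ⊆ J, S.Nonempty ∧ ∑ j ∈ J, v j ≤ (Fintype.card ι : ℝ) * ∑ j ∈ S, v j ∧
      ∃ (i i' : ι) (s' : Bool), (i = i' ∧ s' = true ∨ i ≠ i' ∧ s' = false) ∧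
        ∀ (A B : V d) (UA UB W : Set (V d)) (MA MB : ℕ), W.Finite →
          Rw κ ω UA A (g.hub (trees i).root false) MA →
          Rw κ ω UB (g.hub (trees i').root s') B MB →
          Disjoint UA UB → Disjoint UA Q → Disjoint UB Q →
          (∀ i₀, ∀ v ∈ UA, v ∈ g.Reg (trees i₀) → v ∈ g.zone (trees i).root false) →
          (∀ i₀, ∀ v ∈ UB, v ∈ g.Reg (trees i₀) → v ∈ g.zone (trees i').root s') →
          Q ⊆ W → (∀ i₀, g.Reg (trees i₀) ⊆ W) → UA ⊆ W → UB ⊆ W →
          ∃ N, N ≤ ∑ j ∈ S, D.n j + MA + MB + ∑ i, Tree.cost D J ce mb K (trees i) ∧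
            (projS S (TFam κ ω Q D)).ncard ≤ Zc κ ω W A B N := by
  have hsepL : ∀ i j, i ≠ j → Disjoint (trees i).leaves (trees j).leaves := fun i j hij =>
    ((hsep' i j hij).2.mono (leaves_sub _) (leaves_sub _))
  obtain ⟨W, hdone, hU, hR, hphi⟩ := forest_step (J := J) hD hF g ce mb K trees hcard hQ hsep hsep' hok
  obtain ⟨e, he, hsum, hcase⟩ := best g ce trees hsepL hcov W hdone hJ v hv
  have hf := W.par_mem e he
  have hne : W.par e ≠ e := W.par_ne e he
  have hcase' : ∃ (i i' : ι) (s' : Bool), (i = i' ∧ s' = true ∨ i ≠ i' ∧ s' = false) ∧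
      At W e (g.hub (trees i).root false) (g.zone (trees i).root false) ∧
      At W (W.par e) (g.hub (trees i').root s') (g.zone (trees i').root s') := by
    rcases hcase with ⟨i, h1, h2⟩ | ⟨i, i', hii, h1, h2⟩
    · exact ⟨i, i, true, Or.inl ⟨rfl, rfl⟩, h1, h2⟩
    · exact ⟨i, i', false, Or.inr ⟨hii, rfl⟩, h1, h2⟩
  obtain ⟨i, i', s', hcc, h1, h2⟩ := hcase'
  refine ⟨W.S e, W.S_sub e he, ⟨e.1, W.S_mem e he⟩, hsum, i, i', s', hcc, ?_⟩
  intro A B UA UB WW MA MB hfin hA hB hAB hAQ hBQ hAz hBz hQW hRW hUA hUB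
  have hl1 := W.lane e he
  have hl2 := W.lane (W.par e) hf
  rw [h1.hub] at hl1
  rw [h2.hub] at hl2
  have hA' := rw_union hA (rw_symm hl1)
  have hB' := rw_union hl2 hB
  have hpe : pe D e ∈ Q := pe_mem hD e
  have hpf : pe D (W.par e) ∈ Q := pe_mem hD (W.par e)
  -- the lanes avoid the other road
  have a1 : Disjoint UA (W.U (W.par e)) := by
    rw [Set.disjoint_left]
    intro x hx hx'
    rcases hU _ hf x hx' with h | ⟨i₀, h⟩
    · rw [h] at hx
      exact Set.disjoint_left.1 hAQ hx hpf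
    · exact Set.disjoint_left.1 (h1.U_av _ hf hne) hx' (hAz i₀ x hx h)
  have a2 : Disjoint (W.U e) UB := by
    rw [Set.disjoint_left]
    intro x hx' hx
    rcases hU _ he x hx' with h | ⟨i₀, h⟩
    · rw [h] at hx
      exact Set.disjoint_left.1 hBQ hx hpe
    · exact Set.disjoint_left.1 (h2.U_av _ he hne.symm) hx' (hBz i₀ x hx h)
  have a3 : Disjoint (W.U e) (W.U (W.par e)) := W.U_disj e he _ hf hne.symm
  have r1 : Disjoint (W.R e) UA := by
    rw [Set.disjoint_left]
    intro x hx' hx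
    obtain ⟨i₀, h⟩ := hR _ he x hx'
    exact Set.disjoint_left.1 (h1.R_av _ he) hx' (hAz i₀ x hx h)
  have r2 : Disjoint (W.R e) UB := by
    rw [Set.disjoint_left]
    intro x hx' hx
    obtain ⟨i₀, h⟩ := hR _ he x hx'
    exact Set.disjoint_left.1 (h2.R_av _ he) hx' (hBz i₀ x hx h)
  obtain ⟨N, hN1, hN2⟩ := pf_final (W := WW) (W.pf e he) hA' hB'
    (by
      rw [Set.disjoint_union_left, Set.disjoint_union_right, Set.disjoint_union_right]
      exact ⟨⟨a1, hAB⟩, a3, a2⟩)
    (by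
      rw [Set.disjoint_union_right]
      exact ⟨r1, W.RU_disj e he e he⟩)
    (by
      rw [Set.disjoint_union_right]
      exact ⟨W.RU_disj e he _ hf, r2⟩)
    (by
      rintro x (hx | hx) hxQ
      · exact absurd hxQ (Set.disjoint_left.1 hAQ hx)
      · exact W.U_out e he x hx hxQ)
    (by
      rintro x (hx | hx) hxQ
      · exact W.U_out _ hf x hx hxQ
      · exact absurd hxQ (Set.disjoint_left.1 hBQ hx))
    hpe hpf hfin hQW
    (by
      intro x hx
      obtain ⟨i₀, h⟩ := hR _ he x hx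
      exact hRW i₀ h)
    (by
      rintro x (hx | hx)
      · exact hUA hx
      · rcases hU _ he x hx with h | ⟨i₀, h⟩
        · rw [h]; exact hQW hpe
        · exact hRW i₀ h)
    (by
      rintro x (hx | hx)
      · rcases hU _ hf x hx with h | ⟨i₀, h⟩
        · rw [h]; exact hQW hpf
        · exact hRW i₀ h
      · exact hUB hx)
  refine ⟨N, hN1.trans ?_, hN2⟩
  have hsub : ({e, W.par e} : Finset (En D)) ⊆ W.fr := by
    intro x hx
    rcases Finset.mem_insert.1 hx with h | h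
    · rw [h]; exact he
    · rw [Finset.mem_singleton.1 h]; exact hf
  have h3 : (W.L e + 2 * W.M e) + (W.L (W.par e) + 2 * W.M (W.par e)) ≤ W.phi := by
    unfold World.phi
    rw [← Finset.sum_pair hne.symm (f := fun e => W.L e + 2 * W.M e)]
    exact Finset.sum_le_sum_of_subset hsub
  rw [W.L_par e he] at h3
  omega

end Pool.Agent.H47.HJ
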