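import Pool.Agent.H47.HJ.ExtO

/-!
# HJ module NodeA: operations for tokens sitting at hubs with zones

`node_pass`, `node_join`: `pass_ext`, `join_ext`; the region `G` is fresh. Afterwards `ext_at` and `ext_fresh` (with the region
`U` of the track) tell what is preserved.
-/

open MeasureTheory Filter Topology
open Pool.Agent.H17.IIC Pool.Agent.H41.QC Pool.Agent.H47.GM Pool.Agent.H17.QA Pool.Agent.H94.BM

namespace Pool.Agent.H47.HJ

variable {d : ℕ} {κ : Kind} {ω : El d → Bool} {Q : Set (V d)} {D : TData d}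
  {J : Finset (Fin D.k)} {X : Type*}

/-- the token `e` at the hub `a` with zone `Z` moves along the track `U` to the hub `c` with zone `Y` -/
theorem node_pass (W : World κ ω Q D J) {e : En D} {a c : V d} {Z Y G U : Set (V d)} {K : ℕ}
    (hZ : Disjoint Z Q) (hG : Disjoint G Q) (hfresh : Fresh W G) (hY : Fresh W Y)
    (he : At W e a Z) (hr : Rw κ ω U a c K) (hU : U ⊆ G ∪ Z) :
    ∃ W' : World κ ω Q D J, Ext W W' {e} U ∧ W'.fr = W.fr ∧ W'.par = W.par ∧ At W' e c Y ∧
      W'.phi ≤ W.phi + 2 * K := by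
  have hUQ : Disjoint U Q := (Disjoint.union_left hG hZ).mono_left hU
  obtain ⟨W', h1, h2, h3, h4, h5, h6, -, h8⟩ := pass_ext W he.mem (U₀ := U) (h₀ := c) (M₀ := K)
    (by rw [he.hub]; exact hr)
    (fun v hv hQ => (Set.disjoint_left.1 hUQ hv hQ).elim)
    (fun f hf hfe => (Disjoint.union_right (hfresh f hf).1 (he.U_av f hf hfe)).mono_right hU)
    (fun f hf => (Disjoint.union_right (hfresh f hf).2 (he.R_av f hf)).mono_right hU)
  refine ⟨W', h1, h2, h3, ⟨?_, h4, ?_, ?_⟩, h8⟩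
  · rw [h2]; exact he.mem
  · intro f hf hfe
    rw [h2] at hf
    rw [h6 f hf hfe]
    exact (hY f hf).1
  · intro f hf
    rw [h2] at hf
    rw [h5 f hf]
    exact (hY f hf).2

/-- two tokens `e`, `f` (not partners) at the hubs `a`, `b` are joined by the track `U` -/
theorem node_join (hD : TOK Q D) (W : World κ ω Q D J) {e f : En D} (hef : f ≠ e)
    (hpar : f ≠ W.par e) {a b : V d} {Z Z' G U : Set (V d)} {K : ℕ} (hZ : Disjoint Z Q)
    (hZ' : Disjoint Z' Q) (hG : Disjoint G Q) (hfresh : Fresh W G)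
    (he : At W e a Z) (hf : At W f b Z') (hr : Rw κ ω U a b K) (hU : U ⊆ G ∪ Z ∪ Z') :
    ∃ W' : World κ ω Q D J, Ext W W' {e, f} U ∧
      (∀ g, g ∈ W'.fr ↔ g ∈ W.fr ∧ g ≠ e ∧ g ≠ f) ∧
      W'.par (W.par e) = W.par f ∧ W'.par (W.par f) = W.par e ∧ W'.phi ≤ W.phi + 2 * K := by
  have hUQ : Disjoint U Q := (Disjoint.union_left (Disjoint.union_left hG hZ) hZ').mono_left hU
  obtain ⟨W', h1, h2, h3, h4, -, -, h7⟩ := join_ext hD W he.mem hf.mem hef hpar (U₀ := U) (M₀ := K)
    (by rw [he.hub, hf.hub]; exact hr)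
    (fun v hv hQ => (Set.disjoint_left.1 hUQ hv hQ).elim)
    (fun g hg hge hgf => (Disjoint.union_right (Disjoint.union_right (hfresh g hg).1
      (he.U_av g hg hge)) (hf.U_av g hg hgf)).mono_right hU)
    (fun g hg => (Disjoint.union_right (Disjoint.union_right (hfresh g hg).2
      (he.R_av g hg)) (hf.R_av g hg)).mono_right hU)
  exact ⟨W', h1, h2, h3, h4, h7⟩

end Pool.Agent.H47.HJ
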