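import Pool.Agent.H47.HJ.ExtR
import Pool.Agent.H47.HJ.NodeA

/-!
# HJ module NodeS: processing a node whose children are processed

`node_pass`, `node_join`: `pass_ext`, `join_ext` for tokens sitting at hubs with zones; the region `G` is fresh.
Afterwards `ext_at` and `ext_fresh` (with the region `U` of the track) tell what is preserved.

PROOF of `node_step`. `Done W l` and `Done W r` give nine cases (0, 1 or 2 free ends on each side), the case
(1,1) splits into partners or not. In every case the pattern of `NodeOK` gives the tracks, one to three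
operations (joins first). First operation: `G = reg x`. Later operations: `G = reg x \ (tracks used before)`,
fresh by `ext_fresh`; tokens keep their places by `ext_at` (the tracks used are disjoint from the zones of
the other children ports: `Geo.zone_disj`, `zone_sub`, `Sep`), and the target zones `zone x s` are fresh for the tokens
arriving there, because the other tracks avoid them.
Cases (left, right): (0,0) nothing; (1,0) oneL; (0,1) oneR; (2,0) twoL; (0,2) twoR; (1,1) partners: pass, not
partners: join; (2,1): join the token at `(l,+)` with the one at `(r,-)` (they are not partners because the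
partner of `(l,+)` is `(l,-)`), pass `(l,-)` to `-`; (1,2): join `(l,-)`, `(r,-)`, pass `(r,+)` to `-`; (2,2): join `(l,+)`,
`(r,-)`, pass `(l,-)` to `-` and `(r,+)` to `+`: the new partners.
-/

open MeasureTheory Filter Topology
open Pool.Agent.H17.IIC Pool.Agent.H41.QC Pool.Agent.H47.GM Pool.Agent.H17.QA Pool.Agent.H94.BM

namespace Pool.Agent.H47.HJ

variable {d : ℕ} {κ : Kind} {ω : El d → Bool} {Q : Set (V d)} {D : TData d}
  {J : Finset (Fin D.k)} {X : Type*}

lemma NodeS_leaves_sub (T : Tree X) : T.leaves ⊆ T.verts := by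
  induction T with
  | leaf x => exact subset_rfl
  | node x l r ihl ihr =>
    intro y hy
    rcases hy with hy | hy
    · exact Or.inl (Or.inr (ihl hy))
    · exact Or.inr (ihr hy)

lemma NodeS_root_mem (T : Tree X) : T.root ∈ T.verts := by
  cases T with
  | leaf x => exact rfl
  | node x l r => exact Or.inl (Or.inl rfl)

/-- two passes -/
lemma NodeS_two (W : World κ ω Q D J) {e f : En D} (hfe : f ≠ e) {a b c c' : V d}
    {Z Z' Y Y' G U U' : Set (V d)} {K : ℕ} (hZ : Disjoint Z Q) (hZ' : Disjoint Z' Q)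
    (hG : Disjoint G Q) (hfresh : Fresh W G) (hY : Y ⊆ G) (hY' : Y' ⊆ G) (he : At W e a Z)
    (hf : At W f b Z') (hr : Rw κ ω U a c K) (hr' : Rw κ ω U' b c' K) (hU : U ⊆ G ∪ Z)
    (hU' : U' ⊆ G ∪ Z') (hUU : Disjoint U U') (hUY : Disjoint U Y') (hUY' : Disjoint U' Y)
    (hUZ : Disjoint U Z') :
    ∃ W' : World κ ω Q D J, Ext W W' {e, f} (U ∪ U') ∧ W'.fr = W.fr ∧ W'.par = W.par ∧
      At W' e c Y ∧ At W' f c' Y' ∧ W'.phi ≤ W.phi + 4 * K := by
  obtain ⟨W1, h1, h1f, h1p, h1a, h1c⟩ := node_pass W hZ hG hfresh (fresh_mono hfresh hY) he hr hU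
  have hf1 : At W1 f b Z' := ext_at h1 (by simpa using hfe) hf hUZ
  have hfr1 : Fresh W1 (G \ U) :=
    ext_fresh h1 (fresh_mono hfresh Set.sdiff_subset) Set.disjoint_sdiff_right
  have hY1 : Fresh W1 Y' := ext_fresh h1 (fresh_mono hfresh hY') hUY
  have hU1 : U' ⊆ (G \ U) ∪ Z' := by
    intro v hv
    rcases hU' hv with h | h
    · exact Or.inl ⟨h, fun h' => Set.disjoint_left.1 hUU h' hv⟩
    · exact Or.inr h
  obtain ⟨W2, h2, h2f, h2p, h2a, h2c⟩ := node_pass W1 hZ' (hG.mono_left Set.sdiff_subset) hfr1 hY1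
    hf1 hr' hU1
  refine ⟨W2, ?_, h2f.trans h1f, h2p.trans h1p, ext_at h2 (by simpa using hfe.symm) h1a hUY', h2a, ?_⟩
  · exact ext_mono (ext_trans h1 h2) (by
      rintro g (hg | hg)
      · exact Or.inl hg
      · exact Or.inr hg) subset_rfl
  · omega

/-- the state after a join -/
lemma NodeS_join (hD : TOK Q D) (W : World κ ω Q D J) {e f : En D} (hef : f ≠ e)
    (hpar : f ≠ W.par e) {a b : V d} {Z Z' G U : Set (V d)} {K : ℕ} (hZ : Disjoint Z Q)
    (hZ' : Disjoint Z' Q) (hG : Disjoint G Q) (hfresh : Fresh W G)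
    (he : At W e a Z) (hf : At W f b Z') (hr : Rw κ ω U a b K) (hU : U ⊆ G ∪ Z ∪ Z') :
    ∃ W' : World κ ω Q D J, Ext W W' {e, f} U ∧
      (∀ g, g ∈ W'.fr ↔ g ∈ W.fr ∧ g ≠ e ∧ g ≠ f) ∧
      W'.par (W.par e) = W.par f ∧ W'.par (W.par f) = W.par e ∧ Fresh W' (G \ U) ∧
      (∀ g c Y, g ≠ e → g ≠ f → At W g c Y → Disjoint U Y → At W' g c Y) ∧
      W'.phi ≤ W.phi + 2 * K := by
  obtain ⟨W1, h1, h1f, h1p, h1p', h1c⟩ := node_join hD W hef hpar hZ hZ' hG hfresh he hf hr hU
  refine ⟨W1, h1, h1f, h1p, h1p', ?_, ?_, h1c⟩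
  · exact ext_fresh h1 (fresh_mono hfresh Set.sdiff_subset) Set.disjoint_sdiff_right
  · intro g c Y g1 g2 hg hUY
    refine ext_at h1 ?_ hg hUY
    rintro (h | h)
    · exact g1 h
    · exact g2 h

theorem node_step (hD : TOK Q D) (g : Geo X d) (ce : En D → X) (mb K : X → ℕ)
    (x : X) (l r : Tree X) (hQ : Disjoint (g.Reg (.node x l r)) Q)
    (hsep : Tree.Sep g (.node x l r))
    (hok : (∃ e : En D, e.1 ∈ J ∧ (ce e ∈ l.leaves ∨ ce e ∈ r.leaves)) →
      NodeOK κ ω g x l.root r.root (K x))
    (W : World κ ω Q D J) (hfresh : Fresh W (g.reg x)) (hl : Done g ce W l) (hr : Done g ce W r) :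
    ∃ W' : World κ ω Q D J, Ext W W' {e | ce e ∈ l.leaves ∨ ce e ∈ r.leaves}
        (g.Reg (.node x l r)) ∧ Done g ce W' (.node x l r) ∧
      W'.phi ≤ W.phi + 2 * (Tree.cost D J ce mb K (.node x l r) - (Tree.cost D J ce mb K l
        + Tree.cost D J ce mb K r)) := by
  obtain ⟨-, -, hxl, hxr, hlr, hvlr, -, -⟩ := hsep
  -- inclusions
  have hxR : g.reg x ⊆ g.Reg (.node x l r) := fun v hv => ⟨x, Or.inl (Or.inl rfl), hv⟩
  have hlR : g.reg l.root ⊆ g.Reg l := fun v hv => ⟨_, NodeS_root_mem l, hv⟩
  have hrR : g.reg r.root ⊆ g.Reg r := fun v hv => ⟨_, NodeS_root_mem r, hv⟩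
  have hlN : g.Reg l ⊆ g.Reg (.node x l r) := fun v ⟨y, hy, hv⟩ => ⟨y, Or.inl (Or.inr hy), hv⟩
  have hrN : g.Reg r ⊆ g.Reg (.node x l r) := fun v ⟨y, hy, hv⟩ => ⟨y, Or.inr hy, hv⟩
  have zl : ∀ s, g.zone l.root s ⊆ g.Reg l := fun s => (g.zone_sub _ s).trans hlR
  have zr : ∀ s, g.zone r.root s ⊆ g.Reg r := fun s => (g.zone_sub _ s).trans hrR
  have zlN : ∀ s, g.zone l.root s ⊆ g.Reg (.node x l r) := fun s => (zl s).trans hlN
  have zrN : ∀ s, g.zone r.root s ⊆ g.Reg (.node x l r) := fun s => (zr s).trans hrN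
  have zlQ : ∀ s, Disjoint (g.zone l.root s) Q := fun s => hQ.mono_left (zlN s)
  have zrQ : ∀ s, Disjoint (g.zone r.root s) Q := fun s => hQ.mono_left (zrN s)
  have xQ : Disjoint (g.reg x) Q := hQ.mono_left hxR
  have dxl : ∀ s, Disjoint (g.reg x) (g.zone l.root s) := fun s => hxl.mono_right (zl s)
  have dxr : ∀ s, Disjoint (g.reg x) (g.zone r.root s) := fun s => hxr.mono_right (zr s)
  have dlr : ∀ s s', Disjoint (g.zone l.root s) (g.zone r.root s') := fun s s' =>
    (hlr.mono_left (zl s)).mono_right (zr s')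
  have dll := g.zone_disj l.root
  have drr := g.zone_disj r.root
  have zx : ∀ s, g.zone x s ⊆ g.reg x := g.zone_sub x
  have hleaf : ∀ e : En D, ce e ∈ l.leaves → ce e ∉ r.leaves := fun e h h' =>
    Set.disjoint_left.1 hvlr (NodeS_leaves_sub l h) (NodeS_leaves_sub r h')
  have hleafne : ∀ e f : En D, ce e ∈ l.leaves → ce f ∈ r.leaves → f ≠ e := by
    rintro e f h h' rfl; exact hleaf _ h h'
  have hJ : ∀ e ∈ W.fr, e.1 ∈ J := fun e he => W.S_sub e he (W.S_mem e he)
  have hroot : (Tree.node x l r).root = x := rfl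
  -- cost
  have hcost : (∃ e : En D, e.1 ∈ J ∧ (ce e ∈ l.leaves ∨ ce e ∈ r.leaves)) →
      Tree.cost D J ce mb K (.node x l r) - (Tree.cost D J ce mb K l
        + Tree.cost D J ce mb K r) = 3 * K x := by
    intro h
    simp only [Tree.cost, if_pos h]
    omega
  rcases hl with hl | ⟨e, hel, hle, hea⟩ | ⟨e, f, hef, hpef, hel, hfl, hle, hea, hfa⟩
  · rcases hr with hr | ⟨e, her, hre, hea⟩ | ⟨e, f, hef, hpef, her, hfr, hre, hea, hfa⟩
    · -- (0,0)
      refine ⟨W, ext_refl W _ _, Or.inl ?_, by omega⟩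
      rintro e he (h | h)
      · exact hl e he h
      · exact hr e he h
    · -- (0,1)
      have hu : ∃ e : En D, e.1 ∈ J ∧ (ce e ∈ l.leaves ∨ ce e ∈ r.leaves) :=
        ⟨e, hJ e hea.mem, Or.inr her⟩
      obtain ⟨U, hU1, hU2⟩ := (hok hu).oneR
      obtain ⟨W1, h1, h1f, h1p, h1a, h1c⟩ := node_pass (Y := g.zone x false) W (zrQ false) xQ hfresh
        (fresh_mono hfresh (zx false)) hea hU1 hU2
      refine ⟨W1, ext_mono h1 ?_ ?_, Or.inr (Or.inl ⟨e, Or.inr her, ?_, h1a⟩), ?_⟩
      · rintro g rfl; exact Or.inr her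
      · exact hU2.trans (Set.union_subset hxR (zrN false))
      · intro f hf hfc
        rw [h1f] at hf
        rcases hfc with h | h
        · exact absurd h (hl f hf)
        · exact hre f hf h
      · rw [hcost hu]; omega
    · -- (0,2)
      have hu : ∃ e : En D, e.1 ∈ J ∧ (ce e ∈ l.leaves ∨ ce e ∈ r.leaves) :=
        ⟨e, hJ e hea.mem, Or.inr her⟩
      obtain ⟨U, U', hU1, hU2, hU3, hU4, hU5, hU6, hU7⟩ := (hok hu).twoR
      have hUZ : Disjoint U (g.zone r.root true) := by
        refine Disjoint.mono_left hU3 ?_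
        rw [Set.disjoint_union_left]
        exact ⟨dxr true, drr⟩
      obtain ⟨W1, h1, h1f, h1p, h1a, h1b, h1c⟩ := NodeS_two W (Ne.symm hef) (zrQ false) (zrQ true) xQ
        hfresh (zx false) (zx true) hea hfa hU1 hU2 hU3 hU4 hU5 hU6 hU7 hUZ
      refine ⟨W1, ext_mono h1 ?_ ?_, Or.inr (Or.inr ⟨e, f, hef, by rw [h1p]; exact hpef,
        Or.inr her, Or.inr hfr, ?_, h1a, h1b⟩), ?_⟩
      · rintro g (rfl | rfl)
        · exact Or.inr her
        · exact Or.inr hfr
      · exact Set.union_subset (hU3.trans (Set.union_subset hxR (zrN false)))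
          (hU4.trans (Set.union_subset hxR (zrN true)))
      · intro g' hg' hgc
        rw [h1f] at hg'
        rcases hgc with h | h
        · exact absurd h (hl g' hg')
        · exact hre g' hg' h
      · rw [hcost hu]; omega
  · have hu : ∃ e : En D, e.1 ∈ J ∧ (ce e ∈ l.leaves ∨ ce e ∈ r.leaves) :=
      ⟨e, hJ e hea.mem, Or.inl hel⟩
    have hN := hok hu
    rcases hr with hr | ⟨e', her', hre', hea'⟩ | ⟨e', f', hef', hpef', her', hfr', hre', hea', hfa'⟩
    · -- (1,0)
      obtain ⟨U, hU1, hU2⟩ := hN.oneL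
      obtain ⟨W1, h1, h1f, h1p, h1a, h1c⟩ := node_pass (Y := g.zone x false) W (zlQ false) xQ hfresh
        (fresh_mono hfresh (zx false)) hea hU1 hU2
      refine ⟨W1, ext_mono h1 ?_ ?_, Or.inr (Or.inl ⟨e, Or.inl hel, ?_, h1a⟩), ?_⟩
      · rintro g rfl; exact Or.inl hel
      · exact hU2.trans (Set.union_subset hxR (zlN false))
      · intro f hf hfc
        rw [h1f] at hf
        rcases hfc with h | h
        · exact hle f hf h
        · exact absurd h (hr f hf)
      · rw [hcost hu]; omega
    · -- (1,1)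
      have hne : e' ≠ e := hleafne e e' hel her'
      by_cases hp : W.par e = e'
      · obtain ⟨U, U', hU1, hU2, hU3, hU4, hU5, hU6, hU7⟩ := hN.pass
        have hUZ : Disjoint U (g.zone r.root false) := by
          refine Disjoint.mono_left hU3 ?_
          rw [Set.disjoint_union_left]
          exact ⟨dxr false, dlr false false⟩
        obtain ⟨W1, h1, h1f, h1p, h1a, h1b, h1c⟩ := NodeS_two W hne (zlQ false) (zrQ false)
          xQ hfresh (zx false) (zx true) hea hea' hU1 hU2 hU3 hU4 hU5 hU6 hU7 hUZ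
        refine ⟨W1, ext_mono h1 ?_ ?_, Or.inr (Or.inr ⟨e, e', hne.symm, by rw [h1p]; exact hp,
          Or.inl hel, Or.inr her', ?_, h1a, h1b⟩), ?_⟩
        · rintro g (rfl | rfl)
          · exact Or.inl hel
          · exact Or.inr her'
        · exact Set.union_subset (hU3.trans (Set.union_subset hxR (zlN false)))
            (hU4.trans (Set.union_subset hxR (zrN false)))
        · intro g' hg' hgc
          rw [h1f] at hg'
          rcases hgc with h | h
          · exact Or.inl (hle g' hg' h)
          · exact Or.inr (hre' g' hg' h)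
        · rw [hcost hu]; omega
      · obtain ⟨U, hU1, hU2⟩ := hN.join
        obtain ⟨W1, h1, h1f, -, -, -, -, h1c⟩ := NodeS_join hD W hne (fun h => hp h.symm)
          (zlQ false) (zrQ false) xQ hfresh hea hea' hU1 hU2
        refine ⟨W1, ext_mono h1 ?_ ?_, Or.inl ?_, ?_⟩
        · rintro g (rfl | rfl)
          · exact Or.inl hel
          · exact Or.inr her'
        · exact hU2.trans (Set.union_subset (Set.union_subset hxR (zlN false)) (zrN false))
        · intro g' hg' hgc
          rw [h1f] at hg'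
          rcases hgc with h | h
          · exact hg'.2.1 (hle g' hg'.1 h)
          · exact hg'.2.2 (hre' g' hg'.1 h)
        · rw [hcost hu]; omega
    · -- (1,2)
      obtain ⟨U, U', hU1, hU2, hU3, hU4, hU5, hU6⟩ := hN.j12
      have hne : e' ≠ e := hleafne e e' hel her'
      have hnf : f' ≠ e := hleafne e f' hel hfr'
      have hpf' : W.par f' = e' := by rw [← hpef']; exact W.par_par e' hea'.mem
      have hnp : e' ≠ W.par e := by
        intro h
        apply hnf
        rw [← hpef', h, W.par_par e hea.mem]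
      obtain ⟨W1, h1, h1f, -, -, h1fr, h1at, h1c⟩ := NodeS_join hD W hne hnp
        (zlQ false) (zrQ false) xQ hfresh hea hea' hU1 hU3
      have hUZ : Disjoint U (g.zone r.root true) := by
        refine Disjoint.mono_left hU3 ?_
        rw [Set.disjoint_union_left, Set.disjoint_union_left]
        exact ⟨⟨dxr true, dlr false true⟩, drr⟩
      have hf1 := h1at f' _ _ hnf (Ne.symm hef') hfa' hUZ
      have hU' : U' ⊆ (g.reg x \ U) ∪ g.zone r.root true := by
        intro v hv
        rcases hU4 hv with h | h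
        · exact Or.inl ⟨h, fun h' => Set.disjoint_left.1 hU5 h' hv⟩
        · exact Or.inr h
      have hz : g.zone x false ⊆ g.reg x \ U := fun v hv =>
        ⟨zx false hv, fun h' => Set.disjoint_left.1 hU6 h' hv⟩
      obtain ⟨W2, h2, h2f, h2p, h2a, h2c⟩ := node_pass (Y := g.zone x false) W1 (zrQ true)
        (xQ.mono_left Set.sdiff_subset) h1fr (fresh_mono h1fr hz) hf1 hU2 hU'
      refine ⟨W2, ext_mono (ext_trans h1 h2) ?_ ?_, Or.inr (Or.inl ⟨f', Or.inr hfr', ?_, h2a⟩), ?_⟩
      · rintro g ((rfl | rfl) | rfl)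
        · exact Or.inl hel
        · exact Or.inr her'
        · exact Or.inr hfr'
      · exact Set.union_subset
          (hU3.trans (Set.union_subset (Set.union_subset hxR (zlN false)) (zrN false)))
          (hU4.trans (Set.union_subset hxR (zrN true)))
      · intro g' hg' hgc
        rw [h2f, h1f] at hg'
        rcases hgc with h | h
        · exact absurd (hle g' hg'.1 h) hg'.2.1
        · rcases hre' g' hg'.1 h with h | h
          · exact absurd h hg'.2.2
          · exact h
      · rw [hcost hu]; omega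
  · have hu : ∃ e : En D, e.1 ∈ J ∧ (ce e ∈ l.leaves ∨ ce e ∈ r.leaves) :=
      ⟨e, hJ e hea.mem, Or.inl hel⟩
    have hN := hok hu
    have hpf : W.par f = e := by rw [← hpef]; exact W.par_par e hea.mem
    rcases hr with hr | ⟨e', her', hre', hea'⟩ | ⟨e', f', hef', hpef', her', hfr', hre', hea', hfa'⟩
    · -- (2,0)
      obtain ⟨U, U', hU1, hU2, hU3, hU4, hU5, hU6, hU7⟩ := hN.twoL
      have hUZ : Disjoint U (g.zone l.root true) := by
        refine Disjoint.mono_left hU3 ?_
        rw [Set.disjoint_union_left]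
        exact ⟨dxl true, dll⟩
      obtain ⟨W1, h1, h1f, h1p, h1a, h1b, h1c⟩ := NodeS_two W (Ne.symm hef) (zlQ false) (zlQ true) xQ
        hfresh (zx false) (zx true) hea hfa hU1 hU2 hU3 hU4 hU5 hU6 hU7 hUZ
      refine ⟨W1, ext_mono h1 ?_ ?_, Or.inr (Or.inr ⟨e, f, hef, by rw [h1p]; exact hpef,
        Or.inl hel, Or.inl hfl, ?_, h1a, h1b⟩), ?_⟩
      · rintro g (rfl | rfl)
        · exact Or.inl hel
        · exact Or.inl hfl
      · exact Set.union_subset (hU3.trans (Set.union_subset hxR (zlN false)))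
          (hU4.trans (Set.union_subset hxR (zlN true)))
      · intro g' hg' hgc
        rw [h1f] at hg'
        rcases hgc with h | h
        · exact hle g' hg' h
        · exact absurd h (hr g' hg')
      · rw [hcost hu]; omega
    · -- (2,1)
      obtain ⟨U, U', hU1, hU2, hU3, hU4, hU5, hU6⟩ := hN.j21
      have hne : e' ≠ f := hleafne f e' hfl her'
      have hne' : e' ≠ e := hleafne e e' hel her'
      obtain ⟨W1, h1, h1f, -, -, h1fr, h1at, h1c⟩ := NodeS_join hD W hne (by rw [hpf]; exact hne')
        (zlQ true) (zrQ false) xQ hfresh hfa hea' hU1 hU3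
      have hUZ : Disjoint U (g.zone l.root false) := by
        refine Disjoint.mono_left hU3 ?_
        rw [Set.disjoint_union_left, Set.disjoint_union_left]
        exact ⟨⟨dxl false, dll.symm⟩, (dlr false false).symm⟩
      have he1 := h1at e _ _ hef hne'.symm hea hUZ
      have hU' : U' ⊆ (g.reg x \ U) ∪ g.zone l.root false := by
        intro v hv
        rcases hU4 hv with h | h
        · exact Or.inl ⟨h, fun h' => Set.disjoint_left.1 hU5 h' hv⟩
        · exact Or.inr h
      have hz : g.zone x false ⊆ g.reg x \ U := fun v hv =>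
        ⟨zx false hv, fun h' => Set.disjoint_left.1 hU6 h' hv⟩
      obtain ⟨W2, h2, h2f, h2p, h2a, h2c⟩ := node_pass (Y := g.zone x false) W1 (zlQ false)
        (xQ.mono_left Set.sdiff_subset) h1fr (fresh_mono h1fr hz) he1 hU2 hU'
      refine ⟨W2, ext_mono (ext_trans h1 h2) ?_ ?_, Or.inr (Or.inl ⟨e, Or.inl hel, ?_, h2a⟩), ?_⟩
      · rintro g ((rfl | rfl) | rfl)
        · exact Or.inl hfl
        · exact Or.inr her'
        · exact Or.inl hel
      · exact Set.union_subset
          (hU3.trans (Set.union_subset (Set.union_subset hxR (zlN true)) (zrN false)))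
          (hU4.trans (Set.union_subset hxR (zlN false)))
      · intro g' hg' hgc
        rw [h2f, h1f] at hg'
        rcases hgc with h | h
        · rcases hle g' hg'.1 h with h | h
          · exact h
          · exact absurd h hg'.2.1
        · exact absurd (hre' g' hg'.1 h) hg'.2.2
      · rw [hcost hu]; omega
    · -- (2,2)
      obtain ⟨U, U', U'', hU1, hU2, hU3, hU4, hU5, hU6, hd1, hd2, hd3, hd4, hd5, hd6, hd7⟩ := hN.j22
      have n1 : e' ≠ f := hleafne f e' hfl her'
      have n2 : e' ≠ e := hleafne e e' hel her'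
      have n3 : f' ≠ f := hleafne f f' hfl hfr'
      have n4 : f' ≠ e := hleafne e f' hel hfr'
      obtain ⟨W1, h1, h1f, h1p, -, h1fr, h1at, h1c⟩ := NodeS_join hD W n1 (by rw [hpf]; exact n2)
        (zlQ true) (zrQ false) xQ hfresh hfa hea' hU1 hU4
      have hUZ1 : Disjoint U (g.zone l.root false) := by
        refine Disjoint.mono_left hU4 ?_
        rw [Set.disjoint_union_left, Set.disjoint_union_left]
        exact ⟨⟨dxl false, dll.symm⟩, (dlr false false).symm⟩
      have hUZ2 : Disjoint U (g.zone r.root true) := by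
        refine Disjoint.mono_left hU4 ?_
        rw [Set.disjoint_union_left, Set.disjoint_union_left]
        exact ⟨⟨dxr true, dlr true true⟩, drr⟩
      have he1 := h1at e _ _ hef n2.symm hea hUZ1
      have hf1 := h1at f' _ _ n3 (Ne.symm hef') hfa' hUZ2
      have hU' : U' ⊆ (g.reg x \ U) ∪ g.zone l.root false := by
        intro v hv
        rcases hU5 hv with h | h
        · exact Or.inl ⟨h, fun h' => Set.disjoint_left.1 hd1 h' hv⟩
        · exact Or.inr h
      have hU'' : U'' ⊆ (g.reg x \ U) ∪ g.zone r.root true := by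
        intro v hv
        rcases hU6 hv with h | h
        · exact Or.inl ⟨h, fun h' => Set.disjoint_left.1 hd2 h' hv⟩
        · exact Or.inr h
      have hz1 : g.zone x false ⊆ g.reg x \ U := fun v hv =>
        ⟨zx false hv, fun h' => Set.disjoint_left.1 hd4 h' hv⟩
      have hz2 : g.zone x true ⊆ g.reg x \ U := fun v hv =>
        ⟨zx true hv, fun h' => Set.disjoint_left.1 hd5 h' hv⟩
      have hUZ3 : Disjoint U' (g.zone r.root true) := by
        refine Disjoint.mono_left hU5 ?_
        rw [Set.disjoint_union_left]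
        exact ⟨dxr true, dlr false true⟩
      obtain ⟨W2, h2, h2f, h2p, h2a, h2b, h2c⟩ := NodeS_two W1 n4 (zlQ false) (zrQ true)
        (xQ.mono_left Set.sdiff_subset) h1fr hz1 hz2 he1 hf1 hU2 hU3 hU' hU'' hd3 hd6 hd7 hUZ3
      have hpar : W2.par e = f' := by
        rw [h2p]
        have := h1p
        rwa [hpf, hpef'] at this
      refine ⟨W2, ext_mono (ext_trans h1 h2) ?_ ?_, Or.inr (Or.inr ⟨e, f', n4.symm, hpar,
        Or.inl hel, Or.inr hfr', ?_, h2a, h2b⟩), ?_⟩
      · rintro g ((rfl | rfl) | (rfl | rfl))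
        · exact Or.inl hfl
        · exact Or.inr her'
        · exact Or.inl hel
        · exact Or.inr hfr'
      · exact Set.union_subset
          (hU4.trans (Set.union_subset (Set.union_subset hxR (zlN true)) (zrN false)))
          (Set.union_subset (hU5.trans (Set.union_subset hxR (zlN false)))
            (hU6.trans (Set.union_subset hxR (zrN true))))
      · intro g' hg' hgc
        rw [h2f, h1f] at hg'
        rcases hgc with h | h
        · rcases hle g' hg'.1 h with h | h
          · exact Or.inl h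
          · exact absurd h hg'.2.1
        · rcases hre' g' hg'.1 h with h | h
          · exact absurd h hg'.2.2
          · exact Or.inr h
      · rw [hcost hu]; omega

end Pool.Agent.H47.HJ
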