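import Pool.Agent.H47.HJ.PFl
import Pool.Agent.H47.HJ.RwP

/-!
# HJ module OpI: the initial world

`fr = J ×ˢ univ`, `par (j,s) = (j, !s)`, `S = {j}`, no roads, lanes `{pe D e}`, `h e = pe D e`, `M = 0`.
-/

open MeasureTheory Filter Topology
open Pool.Agent.H17.IIC Pool.Agent.H41.QC Pool.Agent.H47.GM Pool.Agent.H17.QA Pool.Agent.H94.BM

namespace Pool.Agent.H47.HJ

variable {d : ℕ} {κ : Kind} {ω : El d → Bool} {Q : Set (V d)} {D : TData d}
  {J : Finset (Fin D.k)}

theorem init_world (hD : TOK Q D) (hF : (TFam κ ω Q D).Nonempty) :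
    ∃ W : World κ ω Q D J, (∀ e : En D, e.1 ∈ J → Raw W e) ∧ (∀ e ∈ W.fr, e.1 ∈ J) ∧
      (∀ e ∈ W.fr, W.R e = ∅) ∧ (∀ e ∈ W.fr, W.par e = (e.1, !e.2)) ∧ W.phi = 0 := by
  classical
  have hmem : ∀ e : En D, e ∈ J ×ˢ (Finset.univ : Finset Bool) ↔ e.1 ∈ J := by
    intro e
    rw [Finset.mem_product]
    exact ⟨fun h => h.1, fun h => ⟨h, Finset.mem_univ _⟩⟩
  refine ⟨{
    fr := J ×ˢ (Finset.univ : Finset Bool)
    par := fun e => (e.1, !e.2)
    S := fun e => {e.1}
    R := fun _ => ∅
    L := fun _ => 0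
    U := fun e => {pe D e}
    h := fun e => pe D e
    M := fun _ => 0
    par_mem := ?_
    par_ne := ?_
    par_par := ?_
    S_par := ?_
    R_par := fun _ _ => rfl
    L_par := fun _ _ => rfl
    S_sub := ?_
    S_mem := ?_
    cover := ?_
    S_disj := ?_
    R_disj := ?_
    RU_disj := ?_
    U_disj := ?_
    R_out := ?_
    U_out := ?_
    lane := ?_
    pf := ?_ }, ?_, ?_, ?_, ?_, ?_⟩
  · intro e he
    rw [hmem] at he ⊢
    exact he
  · intro e _ h
    have := congrArg Prod.snd h
    simp at this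
  · intro e _
    simp
  · intro e _
    rfl
  · intro e he
    rw [hmem] at he
    exact Finset.singleton_subset_iff.2 he
  · intro e _
    exact Finset.mem_singleton_self _
  · intro j hj
    exact ⟨(j, true), (hmem _).2 hj, Finset.mem_singleton_self _⟩
  · intro e _ f _ h1 h2
    rw [Finset.disjoint_singleton]
    intro h3
    rcases e with ⟨j, s⟩
    rcases f with ⟨j', s'⟩
    simp only at h3
    subst h3
    cases s <;> cases s' <;> simp_all
  · intro e _ f _ _ _
    exact Set.disjoint_empty _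
  · intro e _ f _
    exact (Set.disjoint_empty _).symm
  · intro e _ f _ hne
    rw [Set.disjoint_singleton]
    intro h
    exact hne (pe_inj hD hF h)
  · intro e _
    exact (Set.disjoint_empty _).symm
  · intro e _ v hv _
    exact hv
  · intro e _
    exact rw_pe hD hF e
  · intro e _
    exact pf_single e.1 e.2
  · intro e he
    exact ⟨(hmem e).2 he, rfl, rfl⟩
  · intro e he
    exact (hmem e).1 he
  · intro e _
    rfl
  · intro e _
    rfl
  · unfold World.phi
    simp

end Pool.Agent.H47.HJ
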