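import Pool.Agent.H47.HJ.Defs
import Pool.Agent.H47.HJ.RwT

/-!
# HJ module PFl: path families, simple facts

`pf_single`: `P w = w j` or its reverse. `pf_symm`: reverse all paths.
-/

open MeasureTheory Filter Topology
open Pool.Agent.H17.IIC Pool.Agent.H41.QC Pool.Agent.H47.GM Pool.Agent.H17.QA Pool.Agent.H94.BM

namespace Pool.Agent.H47.HJ

variable {d : ℕ} {κ : Kind} {ω : El d → Bool} {Q : Set (V d)} {D : TData d}

lemma pf_symm {S : Finset (Fin D.k)} {a b : V d} {R : Set (V d)} {L : ℕ}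
    (h : PF κ ω Q D S a b R L) : PF κ ω Q D S b a R L := by
  obtain ⟨P, h1, h2⟩ := h
  refine ⟨fun w => (P w).reverse, fun w hw => ?_, fun w hw w' hw' he => ?_⟩
  · obtain ⟨ho, ha, hb, hl, hv⟩ := h1 w hw
    refine ⟨op_reverse ho, ?_, ?_, ?_, fun v hv' => hv v (List.mem_reverse.1 hv')⟩
    · rw [List.head?_reverse]; exact hb
    · rw [List.getLast?_reverse]; exact ha
    · rw [List.length_reverse]; exact hl
  · exact h2 w hw w' hw' (List.reverse_injective he)

lemma pf_single (j : Fin D.k) (s : Bool) :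
    PF κ ω Q D {j} (pe D (j, s)) (pe D (j, !s)) ∅ 0 := by
  have key : PF κ ω Q D {j} (pe D (j, false)) (pe D (j, true)) ∅ 0 := by
    refine ⟨fun w => w j, fun w hw => ?_, fun w _ w' _ he i hi => ?_⟩
    · obtain ⟨ho, hl, hx, hy, -⟩ := hw.1 j
      refine ⟨ho, ?_, ?_, ?_, fun v hv => Or.inr ⟨j, Finset.mem_singleton_self j, hv⟩⟩
      · rw [hx]; simp [pe, TData.pt]
      · rw [hy]; simp [pe, TData.pt]
      · rw [hl, Finset.sum_singleton]
    · rw [Finset.mem_singleton] at hi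
      subst hi
      exact he
  cases s with
  | false => exact key
  | true => exact pf_symm key

lemma pf_mono {S : Finset (Fin D.k)} {a b : V d} {R R' : Set (V d)} {L : ℕ}
    (h : PF κ ω Q D S a b R L) (hR : R ⊆ R') : PF κ ω Q D S a b R' L := by
  obtain ⟨P, h1, h2⟩ := h
  refine ⟨P, fun w hw => ?_, h2⟩
  obtain ⟨ho, ha, hb, hl, hv⟩ := h1 w hw
  exact ⟨ho, ha, hb, hl, fun v hv' => (hv v hv').imp (fun h => hR h) (fun h => h)⟩

end Pool.Agent.H47.HJ
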