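import Pool.Agent.H47.HJ.PFj
import Pool.Agent.H47.HJ.PFl
import Pool.Agent.H47.HJ.RwP

/-!
# HJ module OpJ: joining two free ends

`fr' = (fr.erase e).erase f`; `par' g = if g = par e then par f else if g = par f then par e else par g`;
`S' g = if g = par e ∨ g = par f then S e ∪ S f else S g`, the same for `R'` with
`R e ∪ R f ∪ ((U e ∪ U₀ ∪ U f) \ Q)`, `L'` with `L e + L f + m`; `pf_join` for the families `par e → e` and `f → par f` with
`hr = rw_union (rw_union (lane e) h₀) (rw_symm (lane f))`.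
-/

open MeasureTheory Filter Topology
open Pool.Agent.H17.IIC Pool.Agent.H41.QC Pool.Agent.H47.GM Pool.Agent.H17.QA Pool.Agent.H94.BM

namespace Pool.Agent.H47.HJ

variable {d : ℕ} {κ : Kind} {ω : El d → Bool} {Q : Set (V d)} {D : TData d}
  {J : Finset (Fin D.k)}

open Classical in
theorem join_op (hD : TOK Q D) (W : World κ ω Q D J) {e f : En D} (he : e ∈ W.fr) (hf : f ∈ W.fr)
    (hef : f ≠ e) (hpar : f ≠ W.par e) {U₀ : Set (V d)} {M₀ : ℕ}
    (hr : Rw κ ω U₀ (W.h e) (W.h f) M₀) (hQ : ∀ v ∈ U₀, v ∈ Q → v = pe D e ∨ v = pe D f)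
    (hU : ∀ g ∈ W.fr, g ≠ e → g ≠ f → Disjoint (W.U g) U₀)
    (hR : ∀ g ∈ W.fr, Disjoint (W.R g) U₀) :
    ∃ W' : World κ ω Q D J, W'.fr = (W.fr.erase e).erase f ∧
      (∀ g, W'.par g = if g = W.par e then W.par f else if g = W.par f then W.par e else W.par g) ∧
      (∀ g, W'.S g = if g = W.par e ∨ g = W.par f then W.S e ∪ W.S f else W.S g) ∧
      (∀ g, W'.R g = if g = W.par e ∨ g = W.par f then
        W.R e ∪ W.R f ∪ ((W.U e ∪ U₀ ∪ W.U f) \ Q) else W.R g) ∧
      W'.U = W.U ∧ W'.h = W.h ∧ W'.phi ≤ W.phi + 2 * M₀ := by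
  -- the four ends
  obtain ⟨a, ha⟩ : ∃ a, a = W.par e := ⟨_, rfl⟩
  obtain ⟨b, hb⟩ : ∃ b, b = W.par f := ⟨_, rfl⟩
  have ham : a ∈ W.fr := ha ▸ W.par_mem e he
  have hbm : b ∈ W.fr := hb ▸ W.par_mem f hf
  have hpa : W.par a = e := by rw [ha]; exact W.par_par e he
  have hpb : W.par b = f := by rw [hb]; exact W.par_par f hf
  have hae : a ≠ e := ha ▸ W.par_ne e he
  have hbf : b ≠ f := hb ▸ W.par_ne f hf
  have hfa : f ≠ a := ha ▸ hpar
  have hbe : b ≠ e := by
    intro h
    apply hfa
    rw [ha, ← h, hpb]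
  have hab : a ≠ b := by
    intro h
    apply hef
    rw [← hpb, ← h, hpa]
  have hSa : W.S a = W.S e := ha ▸ W.S_par e he
  have hSb : W.S b = W.S f := hb ▸ W.S_par f hf
  have hRa : W.R a = W.R e := ha ▸ W.R_par e he
  have hLa : W.L a = W.L e := ha ▸ W.L_par e he
  have hLb : W.L b = W.L f := hb ▸ W.L_par f hf
  simp only [← ha, ← hb]
  -- other ends
  have hpar_ne_e : ∀ g ∈ W.fr, g ≠ a → W.par g ≠ e := fun g hg hga h => hga (by
    rw [ha, ← h, W.par_par g hg])
  have hpar_ne_f : ∀ g ∈ W.fr, g ≠ b → W.par g ≠ f := fun g hg hgb h => hgb (by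
    rw [hb, ← h, W.par_par g hg])
  have hpar_ne_a : ∀ g ∈ W.fr, g ≠ e → W.par g ≠ a := fun g hg hge h => hge (by
    rw [← hpa, ← h, W.par_par g hg])
  have hpar_ne_b : ∀ g ∈ W.fr, g ≠ f → W.par g ≠ b := fun g hg hgf h => hgf (by
    rw [← hpb, ← h, W.par_par g hg])
  -- the joined family
  have hlane : Rw κ ω (W.U e ∪ U₀ ∪ W.U f) (pe D e) (pe D f) (W.M e + M₀ + W.M f) :=
    rw_union (rw_union (W.lane e he) hr) (rw_symm (W.lane f hf))
  have h1 : PF κ ω Q D (W.S e) (pe D a) (pe D e) (W.R e) (W.L e) := by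
    have := W.pf a ham
    rwa [hpa, hSa, hRa, hLa] at this
  have h2 : PF κ ω Q D (W.S f) (pe D f) (pe D b) (W.R f) (W.L f) := by
    have := W.pf f hf
    rwa [← hb] at this
  have hSef : Disjoint (W.S e) (W.S f) := W.S_disj e he f hf hef (ha ▸ hfa)
  have hRef : Disjoint (W.R e) (W.R f) := W.R_disj e he f hf hef (ha ▸ hfa)
  have hUR : ∀ g ∈ W.fr, Disjoint (W.U e ∪ U₀ ∪ W.U f) (W.R g) := by
    intro g hg
    rw [Set.disjoint_union_left, Set.disjoint_union_left]
    exact ⟨⟨(W.RU_disj g hg e he).symm, (hR g hg).symm⟩, (W.RU_disj g hg f hf).symm⟩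
  obtain ⟨m, hm, hpf⟩ := pf_join h1 h2 hlane hSef hRef (W.R_out e he) (W.R_out f hf) (hUR e he)
    (hUR f hf) (by
      intro v hv hvQ
      rcases hv with (hv | hv) | hv
      · exact Or.inl (W.U_out e he v hv hvQ)
      · exact hQ v hv hvQ
      · exact Or.inr (W.U_out f hf v hv hvQ)) (pe_mem hD e) (pe_mem hD f)
  set RR : Set (V d) := W.R e ∪ W.R f ∪ ((W.U e ∪ U₀ ∪ W.U f) \ Q) with hRR
  set LL : ℕ := W.L e + W.L f + m with hLL
  have hmem : ∀ g, g ∈ (W.fr.erase e).erase f ↔ g ≠ f ∧ g ≠ e ∧ g ∈ W.fr := by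
    intro g; simp only [Finset.mem_erase]
  -- disjointness of the new road from the rest
  have hRRR : ∀ g ∈ W.fr, g ≠ e → g ≠ f → g ≠ a → g ≠ b → Disjoint RR (W.R g) := by
    intro g hg g1 g2 g3 g4
    rw [hRR, Set.disjoint_union_left, Set.disjoint_union_left]
    refine ⟨⟨W.R_disj e he g hg g1 (ha ▸ g3), W.R_disj f hf g hg g2 (hb ▸ g4)⟩, ?_⟩
    exact (hUR g hg).mono_left Set.diff_subset
  have hRRU : ∀ g ∈ W.fr, g ≠ e → g ≠ f → Disjoint RR (W.U g) := by
    intro g hg g1 g2
    rw [hRR, Set.disjoint_union_left, Set.disjoint_union_left]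
    refine ⟨⟨W.RU_disj e he g hg, W.RU_disj f hf g hg⟩, ?_⟩
    refine Disjoint.mono_left Set.diff_subset ?_
    rw [Set.disjoint_union_left, Set.disjoint_union_left]
    exact ⟨⟨W.U_disj e he g hg g1.symm, (hU g hg g1 g2).symm⟩, W.U_disj f hf g hg g2.symm⟩
  have hSSS : ∀ g ∈ W.fr, g ≠ e → g ≠ f → g ≠ a → g ≠ b → Disjoint (W.S e ∪ W.S f) (W.S g) := by
    intro g hg g1 g2 g3 g4
    rw [Finset.disjoint_union_left]
    exact ⟨W.S_disj e he g hg g1 (ha ▸ g3), W.S_disj f hf g hg g2 (hb ▸ g4)⟩
  refine ⟨{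
    fr := (W.fr.erase e).erase f
    par := fun g => if g = a then b else if g = b then a else W.par g
    S := fun g => if g = a ∨ g = b then W.S e ∪ W.S f else W.S g
    R := fun g => if g = a ∨ g = b then RR else W.R g
    L := fun g => if g = a ∨ g = b then LL else W.L g
    U := W.U
    h := W.h
    M := W.M
    par_mem := ?_
    par_ne := ?_
    par_par := ?_
    S_par := ?_
    R_par := ?_
    L_par := ?_
    S_sub := ?_
    S_mem := ?_
    cover := ?_
    S_disj := ?_
    R_disj := ?_
    RU_disj := ?_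
    U_disj := ?_
    R_out := ?_
    U_out := ?_
    lane := ?_
    pf := ?_ }, rfl, fun g => rfl, fun g => rfl, fun g => rfl, rfl, rfl, ?_⟩
  · intro g hg
    rw [hmem] at hg ⊢
    obtain ⟨g1, g2, g3⟩ := hg
    by_cases h1 : g = a
    · simp only [h1, if_true]; exact ⟨hbf, hbe, hbm⟩
    · by_cases h2 : g = b
      · simp only [h2, if_true, if_neg hab.symm]; exact ⟨hfa.symm, hae, ham⟩
      · simp only [if_neg h1, if_neg h2]
        exact ⟨hpar_ne_f g g3 h2, hpar_ne_e g g3 h1, W.par_mem g g3⟩
  · intro g hg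
    rw [hmem] at hg
    obtain ⟨g1, g2, g3⟩ := hg
    by_cases h1 : g = a
    · simp only [h1, if_true]; exact hab.symm
    · by_cases h2 : g = b
      · simp only [h2, if_true, if_neg hab.symm]; exact hab
      · simp only [if_neg h1, if_neg h2]
        exact W.par_ne g g3
  · intro g hg
    rw [hmem] at hg
    obtain ⟨g1, g2, g3⟩ := hg
    by_cases h1 : g = a
    · simp only [h1, if_true, if_neg hab.symm]
    · by_cases h2 : g = b
      · simp only [h2, if_true, if_neg hab.symm]
      · simp only [if_neg h1, if_neg h2, if_neg (hpar_ne_a g g3 g2), if_neg (hpar_ne_b g g3 g1)]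
        exact W.par_par g g3
  · intro g hg
    rw [hmem] at hg
    obtain ⟨g1, g2, g3⟩ := hg
    by_cases h1 : g = a
    · simp only [h1, if_true, true_or, or_true]
    · by_cases h2 : g = b
      · simp only [h2, if_true, if_neg hab.symm, true_or, or_true]
      · have h3 : ¬ (g = a ∨ g = b) := by tauto
        have h4 : ¬ (W.par g = a ∨ W.par g = b) := by
          rintro (h | h)
          · exact hpar_ne_a g g3 g2 h
          · exact hpar_ne_b g g3 g1 h
        simp only [if_neg h1, if_neg h2, if_neg h3, if_neg h4]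
        exact W.S_par g g3
  · intro g hg
    rw [hmem] at hg
    obtain ⟨g1, g2, g3⟩ := hg
    by_cases h1 : g = a
    · simp only [h1, if_true, true_or, or_true]
    · by_cases h2 : g = b
      · simp only [h2, if_true, if_neg hab.symm, true_or, or_true]
      · have h3 : ¬ (g = a ∨ g = b) := by tauto
        have h4 : ¬ (W.par g = a ∨ W.par g = b) := by
          rintro (h | h)
          · exact hpar_ne_a g g3 g2 h
          · exact hpar_ne_b g g3 g1 h
        simp only [if_neg h1, if_neg h2, if_neg h3, if_neg h4]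
        exact W.R_par g g3
  · intro g hg
    rw [hmem] at hg
    obtain ⟨g1, g2, g3⟩ := hg
    by_cases h1 : g = a
    · simp only [h1, if_true, true_or, or_true]
    · by_cases h2 : g = b
      · simp only [h2, if_true, if_neg hab.symm, true_or, or_true]
      · have h3 : ¬ (g = a ∨ g = b) := by tauto
        have h4 : ¬ (W.par g = a ∨ W.par g = b) := by
          rintro (h | h)
          · exact hpar_ne_a g g3 g2 h
          · exact hpar_ne_b g g3 g1 h
        simp only [if_neg h1, if_neg h2, if_neg h3, if_neg h4]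
        exact W.L_par g g3
  · intro g hg
    rw [hmem] at hg
    obtain ⟨g1, g2, g3⟩ := hg
    by_cases h3 : g = a ∨ g = b
    · simp only [if_pos h3]
      exact Finset.union_subset (W.S_sub e he) (W.S_sub f hf)
    · simp only [if_neg h3]
      exact W.S_sub g g3
  · intro g hg
    rw [hmem] at hg
    obtain ⟨g1, g2, g3⟩ := hg
    by_cases h3 : g = a ∨ g = b
    · simp only [if_pos h3]
      rcases h3 with h | h
      · subst h; exact Finset.mem_union_left _ (hSa ▸ W.S_mem g g3)
      · subst h; exact Finset.mem_union_right _ (hSb ▸ W.S_mem g g3)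
    · simp only [if_neg h3]
      exact W.S_mem g g3
  · intro j hj
    obtain ⟨g, hg, hjg⟩ := W.cover j hj
    by_cases c1 : g = e ∨ g = a
    · refine ⟨a, by rw [hmem]; exact ⟨hfa.symm, hae, ham⟩, ?_⟩
      simp only [true_or, if_true]
      refine Finset.mem_union_left _ ?_
      rcases c1 with h | h
      · rwa [h] at hjg
      · rwa [h, hSa] at hjg
    · by_cases c2 : g = f ∨ g = b
      · refine ⟨b, by rw [hmem]; exact ⟨hbf, hbe, hbm⟩, ?_⟩
        simp only [or_true, if_true]
        refine Finset.mem_union_right _ ?_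
        rcases c2 with h | h
        · rwa [h] at hjg
        · rwa [h, hSb] at hjg
      · refine ⟨g, by rw [hmem]; exact ⟨fun h => c2 (Or.inl h), fun h => c1 (Or.inl h), hg⟩, ?_⟩
        have h3 : ¬ (g = a ∨ g = b) := by tauto
        simp only [if_neg h3]
        exact hjg
  · intro g hg g' hg' hne hnp
    rw [hmem] at hg hg'
    obtain ⟨g1, g2, g3⟩ := hg
    obtain ⟨k1, k2, k3⟩ := hg'
    by_cases c : g = a ∨ g = b
    · have c' : ¬ (g' = a ∨ g' = b) := by
        rcases c with h | h
        · subst h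
          simp only [if_true] at hnp
          tauto
        · subst h
          simp only [if_neg hab.symm, if_true] at hnp
          tauto
      simp only [if_pos c, if_neg c']
      exact hSSS g' k3 k2 k1 (fun h => c' (Or.inl h)) (fun h => c' (Or.inr h))
    · by_cases c' : g' = a ∨ g' = b
      · simp only [if_neg c, if_pos c']
        exact (hSSS g g3 g2 g1 (fun h => c (Or.inl h)) (fun h => c (Or.inr h))).symm
      · simp only [if_neg c, if_neg c']
        have hc1 : g ≠ a := fun h => c (Or.inl h)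
        have hc2 : g ≠ b := fun h => c (Or.inr h)
        simp only [if_neg hc1, if_neg hc2] at hnp
        exact W.S_disj g g3 g' k3 hne hnp
  · intro g hg g' hg' hne hnp
    rw [hmem] at hg hg'
    obtain ⟨g1, g2, g3⟩ := hg
    obtain ⟨k1, k2, k3⟩ := hg'
    by_cases c : g = a ∨ g = b
    · have c' : ¬ (g' = a ∨ g' = b) := by
        rcases c with h | h
        · subst h
          simp only [if_true] at hnp
          tauto
        · subst h
          simp only [if_neg hab.symm, if_true] at hnp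
          tauto
      simp only [if_pos c, if_neg c']
      exact hRRR g' k3 k2 k1 (fun h => c' (Or.inl h)) (fun h => c' (Or.inr h))
    · by_cases c' : g' = a ∨ g' = b
      · simp only [if_neg c, if_pos c']
        exact (hRRR g g3 g2 g1 (fun h => c (Or.inl h)) (fun h => c (Or.inr h))).symm
      · simp only [if_neg c, if_neg c']
        have hc1 : g ≠ a := fun h => c (Or.inl h)
        have hc2 : g ≠ b := fun h => c (Or.inr h)
        simp only [if_neg hc1, if_neg hc2] at hnp
        exact W.R_disj g g3 g' k3 hne hnp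
  · intro g hg g' hg'
    rw [hmem] at hg hg'
    obtain ⟨g1, g2, g3⟩ := hg
    obtain ⟨k1, k2, k3⟩ := hg'
    by_cases c : g = a ∨ g = b
    · simp only [if_pos c]
      exact hRRU g' k3 k2 k1
    · simp only [if_neg c]
      exact W.RU_disj g g3 g' k3
  · intro g hg g' hg' hne
    rw [hmem] at hg hg'
    exact W.U_disj g hg.2.2 g' hg'.2.2 hne
  · intro g hg
    rw [hmem] at hg
    obtain ⟨g1, g2, g3⟩ := hg
    by_cases c : g = a ∨ g = b
    · simp only [if_pos c]
      rw [hRR, Set.disjoint_union_left, Set.disjoint_union_left]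
      exact ⟨⟨W.R_out e he, W.R_out f hf⟩, Set.disjoint_sdiff_left⟩
    · simp only [if_neg c]
      exact W.R_out g g3
  · intro g hg
    rw [hmem] at hg
    exact W.U_out g hg.2.2
  · intro g hg
    rw [hmem] at hg
    exact W.lane g hg.2.2
  · intro g hg
    rw [hmem] at hg
    obtain ⟨g1, g2, g3⟩ := hg
    by_cases h1 : g = a
    · simp only [h1, true_or, if_true]
      exact hpf
    · by_cases h2 : g = b
      · simp only [h2, or_true, if_true, if_neg hab.symm]
        exact pf_symm hpf
      · have h3 : ¬ (g = a ∨ g = b) := by tauto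
        simp only [if_neg h1, if_neg h2, if_neg h3]
        exact W.pf g g3
  · -- potential
    have hsplit : ∀ F : En D → ℕ, ∑ g ∈ W.fr, F g =
        F e + (F f + (F a + (F b + ∑ g ∈ (((W.fr.erase e).erase f).erase a).erase b, F g))) := by
      intro F
      rw [← Finset.add_sum_erase W.fr F he,
        ← Finset.add_sum_erase (W.fr.erase e) F (Finset.mem_erase.2 ⟨hef, hf⟩),
        ← Finset.add_sum_erase ((W.fr.erase e).erase f) F
          (Finset.mem_erase.2 ⟨hfa.symm, Finset.mem_erase.2 ⟨hae, ham⟩⟩),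
        ← Finset.add_sum_erase (((W.fr.erase e).erase f).erase a) F
          (Finset.mem_erase.2 ⟨hab.symm, Finset.mem_erase.2 ⟨hbf, Finset.mem_erase.2 ⟨hbe, hbm⟩⟩⟩)]
    have hsplit' : ∀ F : En D → ℕ, ∑ g ∈ (W.fr.erase e).erase f, F g =
        F a + (F b + ∑ g ∈ (((W.fr.erase e).erase f).erase a).erase b, F g) := by
      intro F
      rw [← Finset.add_sum_erase ((W.fr.erase e).erase f) F
          (Finset.mem_erase.2 ⟨hfa.symm, Finset.mem_erase.2 ⟨hae, ham⟩⟩),
        ← Finset.add_sum_erase (((W.fr.erase e).erase f).erase a) F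
          (Finset.mem_erase.2 ⟨hab.symm, Finset.mem_erase.2 ⟨hbf, Finset.mem_erase.2 ⟨hbe, hbm⟩⟩⟩)]
    unfold World.phi
    rw [hsplit, hsplit']
    have hrest : ∑ g ∈ (((W.fr.erase e).erase f).erase a).erase b,
        ((if g = a ∨ g = b then LL else W.L g) + 2 * W.M g) =
        ∑ g ∈ (((W.fr.erase e).erase f).erase a).erase b, (W.L g + 2 * W.M g) := by
      refine Finset.sum_congr rfl fun g hg => ?_
      simp only [Finset.mem_erase] at hg
      have : ¬ (g = a ∨ g = b) := by tauto
      rw [if_neg this]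
    rw [hrest]
    simp only [true_or, or_true, if_true]
    rw [hLa, hLb, hLL]
    omega

end Pool.Agent.H47.HJ
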