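import Pool.Agent.H47.HJ.Defs
import Pool.Agent.H47.HJ.RwT

/-!
# HJ module PFj: joining two path families

With `ρ` the open path of the hypothesis `hr` from `a'` to `b'` (its interior avoids `Q`, hence the strands),
`P w = P₁ w ++ ρ.tail ++ (P₂ w).tail` (twice `op_glue`); lengths add up: `(∑_S n + L + 1) + m + (∑_S' n + L')` with
`m = ρ.length - 1 ≤ M`; injectivity by `List.append_inj` (the lengths do not depend on `w`). The strands are in `Q`
and pairwise disjoint; if `a' = b'` then `m = 0`.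
-/

open MeasureTheory Filter Topology
open Pool.Agent.H17.IIC Pool.Agent.H41.QC Pool.Agent.H47.GM Pool.Agent.H17.QA Pool.Agent.H94.BM

namespace Pool.Agent.H47.HJ

variable {d : ℕ} {κ : Kind} {ω : El d → Bool} {Q : Set (V d)} {D : TData d}

lemma PFj_glue_eq {α : Type*} {l l' : List α} {x : α} (hl : l.getLast? = some x)
    (hl' : l'.head? = some x) : l ++ l'.tail = l.dropLast ++ l' := by
  cases l' with
  | nil => simp at hl'
  | cons y t =>
    simp only [List.head?_cons, Option.some.injEq] at hl'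
    subst hl'
    have hne : l ≠ [] := by rintro rfl; simp at hl
    have h1 : l.getLast hne = y := by
      rw [List.getLast?_eq_some_getLast hne] at hl
      exact Option.some.inj hl
    conv_lhs => rw [← List.dropLast_append_getLast hne, h1]
    simp

lemma PFj_glue {α : Type*} {l l' : List α} {x : α} (hl : l.getLast? = some x)
    (hl' : l'.head? = some x) : (l ++ l'.tail).head? = l.head? ∧
      (l ++ l'.tail).getLast? = l'.getLast? ∧
      (l ++ l'.tail).length + 1 = l.length + l'.length := by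
  have hne : l ≠ [] := by rintro rfl; simp at hl
  have hne' : l' ≠ [] := by rintro rfl; simp at hl'
  refine ⟨?_, ?_, ?_⟩
  · exact List.head?_append_of_ne_nil l hne
  · rw [PFj_glue_eq hl hl']
    exact List.getLast?_append_of_ne_nil _ hne'
  · rw [List.length_append, List.length_tail]
    have := List.length_pos_iff.2 hne'
    omega

/-- joining two families: the road goes from `a'` (last vertex of the first family) to `b'` (first
vertex of the second one) -/
theorem pf_join {S S' : Finset (Fin D.k)} {a a' b b' : V d} {R R' U : Set (V d)} {L L' M : ℕ}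
    (h1 : PF κ ω Q D S a a' R L) (h2 : PF κ ω Q D S' b' b R' L') (hr : Rw κ ω U a' b' M)
    (hS : Disjoint S S') (hRR : Disjoint R R') (hRQ : Disjoint R Q) (hRQ' : Disjoint R' Q)
    (hUR : Disjoint U R) (hUR' : Disjoint U R') (hUQ : ∀ v ∈ U, v ∈ Q → v = a' ∨ v = b')
    (ha' : a' ∈ Q) (hb' : b' ∈ Q) :
    ∃ m ≤ M, PF κ ω Q D (S ∪ S') a b (R ∪ R' ∪ (U \ Q)) (L + L' + m) := by
  classical
  obtain ⟨P₁, hP₁, hi₁⟩ := h1
  obtain ⟨P₂, hP₂, hi₂⟩ := h2
  obtain ⟨ρ, hρ, hρa, hρb, hρU, hρM⟩ := hr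
  have hρne : ρ ≠ [] := by rintro rfl; simp at hρa
  have hρl := List.length_pos_iff.2 hρne
  -- facts about the members
  have hQw : ∀ w ∈ TFam κ ω Q D, ∀ j, ∀ v ∈ w j, v ∈ Q := fun w hw j v hv =>
    (hw.1 j).2.2.2.2 v hv
  have hdis : ∀ w ∈ TFam κ ω Q D, ∀ v, (v ∈ R ∨ ∃ j ∈ S, v ∈ w j) →
      ¬ (v ∈ R' ∨ ∃ j ∈ S', v ∈ w j) := by
    rintro w hw v (hv | ⟨j, hj, hv⟩) (hv' | ⟨j', hj', hv'⟩)
    · exact Set.disjoint_left.1 hRR hv hv'
    · exact Set.disjoint_left.1 hRQ hv (hQw w hw j' v hv')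
    · exact Set.disjoint_left.1 hRQ' hv' (hQw w hw j v hv)
    · have hjj : j ≠ j' := by
        rintro rfl
        exact Finset.disjoint_left.1 hS hj hj'
      exact hw.2 j j' hjj hv hv'
  have ha1 : ∀ w ∈ TFam κ ω Q D, a' ∈ P₁ w := fun w hw => by
    obtain ⟨-, -, h, -, -⟩ := hP₁ w hw
    exact List.mem_of_getLast? h
  have hb1 : ∀ w ∈ TFam κ ω Q D, b' ∈ P₂ w := fun w hw => by
    obtain ⟨-, h, -, -, -⟩ := hP₂ w hw
    exact List.mem_of_head? h
  -- a vertex of the road and of the first family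
  have hm1 : ∀ w ∈ TFam κ ω Q D, ∀ v ∈ P₁ w, v ∈ U → v = a' := by
    intro w hw v hv hvU
    obtain ⟨-, -, -, -, hin⟩ := hP₁ w hw
    obtain ⟨-, -, -, -, hin'⟩ := hP₂ w hw
    rcases hin v hv with h | ⟨j, hj, h⟩
    · exact absurd h (Set.disjoint_left.1 hUR hvU)
    · rcases hUQ v hvU (hQw w hw j v h) with h3 | h3
      · exact h3
      · exact absurd (hin' v (h3 ▸ hb1 w hw)) (hdis w hw v (Or.inr ⟨j, hj, h⟩))
  have hm2 : ∀ w ∈ TFam κ ω Q D, ∀ v ∈ P₂ w, v ∈ U → v = b' := by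
    intro w hw v hv hvU
    obtain ⟨-, -, -, -, hin⟩ := hP₁ w hw
    obtain ⟨-, -, -, -, hin'⟩ := hP₂ w hw
    rcases hin' v hv with h | ⟨j, hj, h⟩
    · exact absurd h (Set.disjoint_left.1 hUR' hvU)
    · rcases hUQ v hvU (hQw w hw j v h) with h3 | h3
      · exact absurd (Or.inr ⟨j, hj, h⟩) (hdis w hw v (hin v (h3 ▸ ha1 w hw)))
      · exact h3
  refine ⟨ρ.length - 1, by omega, fun w => P₁ w ++ ρ.tail ++ (P₂ w).tail, ?_, ?_⟩
  · intro w hw
    obtain ⟨o1, s1, e1, l1, in1⟩ := hP₁ w hw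
    obtain ⟨o2, s2, e2, l2, in2⟩ := hP₂ w hw
    obtain ⟨g1, g2, g3⟩ := PFj_glue e1 hρa
    have o3 : OP κ ω (P₁ w ++ ρ.tail) :=
      op_glue o1 hρ e1 hρa fun v hv hv' => hm1 w hw v hv (hρU v hv')
    have e3 : (P₁ w ++ ρ.tail).getLast? = some b' := g2.trans hρb
    obtain ⟨k1, k2, k3⟩ := PFj_glue e3 s2
    refine ⟨?_, ?_, ?_, ?_, ?_⟩
    · refine op_glue o3 o2 e3 s2 fun v hv hv' => ?_
      rcases List.mem_append.1 hv with hv | hv
      · exact absurd (in2 v hv') (hdis w hw v (in1 v hv))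
      · exact hm2 w hw v hv' (hρU v (List.mem_of_mem_tail hv))
    · rw [k1, g1, s1]
    · rw [k2, e2]
    · rw [Finset.sum_union hS]
      show (P₁ w ++ ρ.tail ++ (P₂ w).tail).length = _
      omega
    · intro v hv
      have hcase : v ∈ P₁ w ∨ v ∈ ρ ∨ v ∈ P₂ w := by
        rcases List.mem_append.1 hv with hv | hv
        · rcases List.mem_append.1 hv with hv | hv
          · exact Or.inl hv
          · exact Or.inr (Or.inl (List.mem_of_mem_tail hv))
        · exact Or.inr (Or.inr (List.mem_of_mem_tail hv))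
      have c1 : v ∈ P₁ w → v ∈ R ∪ R' ∪ (U \ Q) ∨ ∃ j ∈ S ∪ S', v ∈ w j := by
        intro hv
        rcases in1 v hv with h | ⟨j, hj, h⟩
        · exact Or.inl (Or.inl (Or.inl h))
        · exact Or.inr ⟨j, Finset.mem_union_left _ hj, h⟩
      have c2 : v ∈ P₂ w → v ∈ R ∪ R' ∪ (U \ Q) ∨ ∃ j ∈ S ∪ S', v ∈ w j := by
        intro hv
        rcases in2 v hv with h | ⟨j, hj, h⟩
        · exact Or.inl (Or.inl (Or.inr h))
        · exact Or.inr ⟨j, Finset.mem_union_right _ hj, h⟩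
      rcases hcase with hv | hv | hv
      · exact c1 hv
      · by_cases hvQ : v ∈ Q
        · rcases hUQ v (hρU v hv) hvQ with h | h
          · exact c1 (h ▸ ha1 w hw)
          · exact c2 (h ▸ hb1 w hw)
        · exact Or.inl (Or.inr ⟨hρU v hv, hvQ⟩)
      · exact c2 hv
  · intro w hw w' hw' he j hj
    obtain ⟨o1, s1, e1, l1, in1⟩ := hP₁ w hw
    obtain ⟨o2, s2, e2, l2, in2⟩ := hP₂ w hw
    obtain ⟨o1', s1', e1', l1', in1'⟩ := hP₁ w' hw'
    obtain ⟨o2', s2', e2', l2', in2'⟩ := hP₂ w' hw'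
    have he' : P₁ w ++ (ρ.tail ++ (P₂ w).tail) = P₁ w' ++ (ρ.tail ++ (P₂ w').tail) := by
      simpa only [List.append_assoc] using he
    obtain ⟨q1, q2⟩ := List.append_inj he' (l1.trans l1'.symm)
    have q3 := List.append_cancel_left q2
    have q4 : P₂ w = P₂ w' := by
      have r1 : P₂ w = b' :: (P₂ w).tail := List.eq_cons_of_mem_head? s2
      have r2 : P₂ w' = b' :: (P₂ w').tail := List.eq_cons_of_mem_head? s2'
      rw [r1, r2, q3]
    rcases Finset.mem_union.1 hj with hj | hj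
    · exact hi₁ w hw w' hw' q1 j hj
    · exact hi₂ w hw w' hw' q4 j hj

end Pool.Agent.H47.HJ
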